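import Mathlib
import Pool.Agent.W516.DRDefs

set_option autoImplicit false

/-!
# Kummer motives and an arbitrary de Rham-Betti structure: definitions
-/

open Module Matrix

noncomputable section

namespace Pool.Agent.V8H93.LK

/-! ### de Rham-Betti structures -/

/-- A de Rham-Betti structure of rank `d` over the field `ℚ̄` of algebraic numbers: the Betti side is the dual
of `ℚ ^ d`, and the de Rham side is given by a basis, whose elements are considered as linear functions
on `ℚ ^ d` with complex values (the periods are the values on the rational vectors); the independence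
means that the comparison is an isomorphism. -/
structure Structure (d : ℕ) where
  /-- the basis of the de Rham side -/
  dR : Fin d → ((Fin d → ℚ) →ₗ[ℚ] ℂ)
  indep : LinearIndependent ℂ dR

/-- The matrix of the periods; the rows are the Betti side. -/
def Structure.matrix {d : ℕ} (V : Structure d) : Matrix (Fin d) (Fin d) ℂ :=
  Matrix.of fun j i => V.dR i (Pi.single j 1)

/-- the field of algebraic numbers -/
abbrev Qbar : Type := algebraicClosure ℚ ℂ

/-- A subobject, given by a subspace `U` of `ℚ ^ d` (homology): the restrictions to `U` of the elements of the de Rham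
side span a vector space over `ℚ̄` of dimension `dim U`. -/
def Structure.IsSub {d : ℕ} (V : Structure d) (U : Submodule ℚ (Fin d → ℚ)) : Prop :=
  Pool.Agent.W516.DR.IsDeRhamBettiSubspace Qbar V.dR U

/-- The structure is semisimple: every subobject has a complement. -/
def Structure.Semisimple {d : ℕ} (V : Structure d) : Prop :=
  ∀ U, V.IsSub U → ∃ U', V.IsSub U' ∧ IsCompl U U'

/-! ### Kummer motives -/

/-- `2 π i` -/
def twoPiI : ℂ := 2 * Real.pi * Complex.I

/-- The matrix of the periods of the 1-motive `[ℤ^n → G_m]` given by the numbers `exp (x i)`: the basis of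
the Betti side consists of the loop around the origin and of paths from `1` to `exp (x i)`; the basis
of the de Rham side consists of `dz / z` and of the basis of `ℤ^n`. -/
def kummer {n : ℕ} (x : Fin n → ℂ) : Matrix (Unit ⊕ Fin n) (Unit ⊕ Fin n) ℂ :=
  Matrix.fromBlocks (Matrix.of fun _ _ => twoPiI) 0 (Matrix.of fun i _ => x i) 1

/-- The basis of the Betti side of the sum of the 1-motive and of a structure of rank `d`. -/
abbrev Idx (n d : ℕ) : Type := (Unit ⊕ Fin n) ⊕ Fin d

/-- The comparison isomorphism of the sum of the 1-motive and of the structure. -/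
def periods {n d : ℕ} (x : Fin n → ℂ) (V : Structure d) : Matrix (Idx n d) (Idx n d) ℂ :=
  Matrix.fromBlocks (kummer x) 0 0 V.matrix

/-- The automorphism of the Betti side of the 1-motive which maps the path with the index `i` to the sum
of this path and of `c i` times the loop, and fixes the loop. -/
def shear {n : ℕ} (c : Fin n → ℂ) : Matrix (Unit ⊕ Fin n) (Unit ⊕ Fin n) ℂ :=
  Matrix.fromBlocks 1 0 (Matrix.of fun i _ => c i) 1

/-- The same automorphism, extended by the identity of the Betti side of the structure. -/
def translation {n : ℕ} (d : ℕ) (c : Fin n → ℂ) : Matrix (Idx n d) (Idx n d) ℂ :=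
  Matrix.fromBlocks (shear c) 0 0 1

/-! ### Algebraic groups which contain the periods -/

/-- A subgroup of `GL_R(ℂ)` defined by polynomials with rational coefficients. -/
def IsAlgebraicSubgroup {R : Type} [Fintype R] [DecidableEq R] (G : Subgroup (GL R ℂ)) : Prop :=
  ∃ I : Set (MvPolynomial (R × R) ℚ), ∀ x : GL R ℂ, x ∈ G ↔
    ∀ p ∈ I, MvPolynomial.aeval (fun b : R × R => (x : Matrix R R ℂ) b.1 b.2) p = 0

/-- The comparison isomorphism `P` is an element of a torsor `G · T⁻¹` of `G`, defined over the
algebraic numbers: `T` is a matrix with algebraic entries such that `P T ∈ G`. -/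
def ContainsPeriods {R : Type} [Fintype R] [DecidableEq R] (G : Subgroup (GL R ℂ))
    (P : Matrix R R ℂ) : Prop :=
  ∃ T : Matrix R R ℂ, (∀ i j, IsAlgebraic ℚ (T i j)) ∧ ∃ y ∈ G, (y : Matrix R R ℂ) = P * T

/-- The matrix `M` is contained in all algebraic groups over `ℚ` with a torsor over `ℚ̄` which contains `P`. -/
def InPeriodGroup {R : Type} [Fintype R] [DecidableEq R] (P M : Matrix R R ℂ) : Prop :=
  ∀ G : Subgroup (GL R ℂ), IsAlgebraicSubgroup G → ContainsPeriods G P →
    ∃ y ∈ G, (y : Matrix R R ℂ) = M

/-! ### The splitting -/

/-- `x` is a logarithm of an algebraic number. -/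
def IsLog (x : ℂ) : Prop := IsAlgebraic ℚ (Complex.exp x)

/-- The vector `c` satisfies the linear relations with rational coefficients which hold for the numbers `x i`
modulo `Γ`. -/
def Relations {n : ℕ} (x : Fin n → ℂ) (Γ : Submodule ℚ ℂ) (c : Fin n → ℂ) : Prop :=
  ∀ q : Fin n → ℚ, ∑ i, (q i : ℂ) * x i ∈ Γ → ∑ i, (q i : ℂ) * c i = 0

/-- **The Kummer motives split off outside of `Γ`.** Let `x i` be logarithms of algebraic numbers, and
let `G` be an algebraic group over `ℚ` with a torsor over `ℚ̄` which contains the comparison isomorphism of the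
sum of the 1-motive `[ℤ^n → G_m]` and of `V`. Then `G` contains all translations by the vectors `c` which
satisfy the linear relations with rational coefficients which hold for the numbers `x i` modulo `Γ`. -/
def SplitsOff {d : ℕ} (V : Structure d) (Γ : Submodule ℚ ℂ) : Prop :=
  ∀ (n : ℕ) (x : Fin n → ℂ), (∀ i, IsLog (x i)) → ∀ c : Fin n → ℂ, Relations x Γ c →
    InPeriodGroup (periods x V) (translation d c)

end Pool.Agent.V8H93.LK
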