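import Pool.Agent.V8H93.LK.Lie
import Pool.Agent.V8H93.LK.Defs

set_option autoImplicit false
set_option linter.unusedSectionVars false

/-!
# The group contains the translations
-/

open Module Matrix

noncomputable section

namespace Pool.Agent.V8H93.LK

open Pool.Agent.Y102 Pool.Agent.R917 Pool.Agent.W516.DR Pool.Agent.TH119.MX

/-! ### Linear algebra -/

/-- Complex vectors which satisfy the rational relations. -/
theorem mem_span_of_rel {n : ℕ} (K : Submodule ℚ (Fin n → ℚ)) {c : Fin n → ℂ}
    (h : ∀ q : Fin n → ℚ, (∀ k ∈ K, ∑ i, q i * k i = 0) → ∑ i, (q i : ℂ) * c i = 0) :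
    c ∈ Submodule.span ℂ {v : Fin n → ℂ | ∃ k ∈ K, v = fun i => (k i : ℂ)} := by
  classical
  -- the components
  have h1 : ∀ lam : ℂ →ₗ[ℚ] ℚ, (fun i => lam (c i)) ∈ K := by
    intro lam
    by_contra hne
    obtain ⟨f, hf, hK⟩ := Submodule.exists_dual_map_eq_bot_of_notMem hne inferInstance
    apply hf
    have hfe : ∀ v : Fin n → ℚ, f v = ∑ i, f (Pi.single i 1) * v i := by
      intro v
      conv_lhs => rw [← Finset.univ_sum_single v, map_sum]
      refine Finset.sum_congr rfl fun i _ => ?_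
      have h2 : (Pi.single i (v i) : Fin n → ℚ) = v i • Pi.single i 1 := by
        rw [← Pi.single_smul, smul_eq_mul, mul_one]
      rw [h2, map_smul, smul_eq_mul, mul_comm]
    have h2 := h (fun i => f (Pi.single i 1)) fun k hk => by
      rw [← hfe]
      have h3 : f k ∈ K.map f := Submodule.mem_map_of_mem hk
      rwa [hK, Submodule.mem_bot] at h3
    have h3 := congrArg lam h2
    rw [map_sum, map_zero] at h3
    rw [hfe, ← h3]
    refine Finset.sum_congr rfl fun i _ => ?_
    have h4 : ((f (Pi.single i 1) : ℚ) : ℂ) * c i = f (Pi.single i 1) • c i := by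
      rw [Algebra.smul_def]
      rfl
    rw [h4, map_smul, smul_eq_mul]
  -- the finite dimensional space of the coordinates
  let F : Submodule ℚ ℂ := Submodule.span ℚ (Set.range c)
  have hF : FiniteDimensional ℚ F := FiniteDimensional.span_of_finite ℚ (Set.finite_range c)
  let b := Module.finBasis ℚ F
  have h2 : ∀ m, ∃ lam : ℂ →ₗ[ℚ] ℚ, ∀ y : F, lam y = b.coord m y := by
    intro m
    obtain ⟨lam, hlam⟩ := LinearMap.exists_extend (b.coord m)
    exact ⟨lam, fun y => by rw [← hlam]; rfl⟩
  choose lam hlam using h2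
  have h3 : c = ∑ m, (b m : ℂ) • fun i => ((lam m (c i) : ℚ) : ℂ) := by
    funext i
    rw [Finset.sum_apply]
    have h4 := b.sum_repr ⟨c i, Submodule.subset_span ⟨i, rfl⟩⟩
    have h5 := congrArg (fun y : F => (y : ℂ)) h4
    beta_reduce at h5
    rw [Submodule.coe_sum] at h5
    conv_lhs => rw [show c i = ((⟨c i, Submodule.subset_span ⟨i, rfl⟩⟩ : F) : ℂ) from rfl, ← h5]
    refine Finset.sum_congr rfl fun m _ => ?_
    have h6 := hlam m ⟨c i, Submodule.subset_span ⟨i, rfl⟩⟩
    rw [Pi.smul_apply, smul_eq_mul]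
    change lam m (c i) = _ at h6
    rw [h6, Submodule.coe_smul, Basis.coord_apply, Algebra.smul_def, mul_comm]
    rfl
  rw [h3]
  exact Submodule.sum_mem _ fun m _ => Submodule.smul_mem _ _
    (Submodule.subset_span ⟨_, h1 (lam m), rfl⟩)

/-! ### The matrices -/

variable {n d : ℕ}

/-- The matrix of an element. -/
def emb (x : Fin n → ℂ) (a : Elt d) : Matrix (Idx n d) (Idx n d) ℂ :=
  Matrix.fromBlocks (Matrix.fromBlocks (Matrix.of fun _ _ => ((a.2.1 : ℚ) : ℂ)) 0
    (Matrix.of fun j _ => ((a.2.2 (x j) : ℚ) : ℂ)) 0) 0 0 (a.1.map (algebraMap ℚ ℂ))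

theorem emb_add (x : Fin n → ℂ) (a b : Elt d) : emb x (a + b) = emb x a + emb x b := by
  ext i j
  rcases i with (i | i) | i <;> rcases j with (j | j) | j <;>
    simp [emb, Matrix.fromBlocks, Matrix.add_apply]

theorem emb_smul (x : Fin n → ℂ) (c : ℚ) (a : Elt d) : emb x (c • a) = (c : ℂ) • emb x a := by
  ext i j
  rcases i with (i | i) | i <;> rcases j with (j | j) | j <;>
    simp [emb, Matrix.fromBlocks, Matrix.smul_apply]

theorem emb_zero (x : Fin n → ℂ) : emb x (0 : Elt d) = 0 := by
  have h := emb_smul (d := d) x 0 0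
  rwa [zero_smul, Rat.cast_zero, zero_smul] at h

theorem emb_br (x : Fin n → ℂ) (a b : Elt d) :
    emb x (br a b) = emb x a * emb x b - emb x b * emb x a := by
  unfold emb
  rw [Matrix.fromBlocks_multiply, Matrix.fromBlocks_multiply, Matrix.fromBlocks_multiply,
    Matrix.fromBlocks_multiply]
  ext i j
  rcases i with (i | i) | i <;> rcases j with (j | j) | j
  · simp [Matrix.fromBlocks, Matrix.mul_apply, br]
    ring
  · simp [Matrix.fromBlocks, br]
  · simp [Matrix.fromBlocks, br]
  · simp [Matrix.fromBlocks, Matrix.mul_apply, br]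
    ring
  · simp [Matrix.fromBlocks, br]
  · simp [Matrix.fromBlocks, br]
  · simp [Matrix.fromBlocks, br]
  · simp [Matrix.fromBlocks, br]
  · simp [Matrix.fromBlocks, Matrix.mul_apply, br]

/-- The nilpotent matrices. -/
def nn (d : ℕ) (c : Fin n → ℂ) : Matrix (Idx n d) (Idx n d) ℂ :=
  Matrix.fromBlocks (Matrix.fromBlocks 0 0 (Matrix.of fun j _ => c j) 0) 0 0 0

theorem nn_sq (c : Fin n → ℂ) : nn d c * nn d c = 0 := by
  unfold nn
  rw [Matrix.fromBlocks_multiply, Matrix.fromBlocks_multiply]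
  simp

theorem nn_add (c c' : Fin n → ℂ) : nn d (c + c') = nn d c + nn d c' := by
  ext i j
  rcases i with (i | i) | i <;> rcases j with (j | j) | j <;>
    simp [nn, Matrix.fromBlocks, Matrix.add_apply]

theorem nn_smul (a : ℂ) (c : Fin n → ℂ) : nn d (a • c) = a • nn d c := by
  ext i j
  rcases i with (i | i) | i <;> rcases j with (j | j) | j <;>
    simp [nn, Matrix.fromBlocks, Matrix.smul_apply]

theorem nn_zero : nn d (0 : Fin n → ℂ) = 0 := by
  have h := nn_smul (d := d) 0 (0 : Fin n → ℂ)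
  rwa [zero_smul, zero_smul] at h

theorem translation_eq (c : Fin n → ℂ) : translation d c = 1 + (1 : ℂ) • nn d c := by
  rw [one_smul]
  ext i j
  rcases i with (i | i) | i <;> rcases j with (j | j) | j <;>
    simp [nn, translation, shear, Matrix.fromBlocks, Matrix.add_apply, Matrix.one_apply]

/-! ### The periods -/

variable (V : Structure d)

theorem det_matrix : V.matrix.det ≠ 0 := by
  intro h0
  obtain ⟨v, hv, h1⟩ := Matrix.exists_mulVec_eq_zero_iff.2 h0
  apply hv
  have h2 : ∑ i, v i • V.dR i = 0 := by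
    refine (Pi.basisFun ℚ (Fin d)).ext fun j => ?_
    have h3 := congrFun h1 j
    rw [Matrix.mulVec, dotProduct, Pi.zero_apply] at h3
    rw [LinearMap.sum_apply, LinearMap.zero_apply, Pi.basisFun_apply, ← h3]
    refine Finset.sum_congr rfl fun i _ => ?_
    rw [LinearMap.smul_apply, smul_eq_mul, mul_comm]
    rfl
  exact funext fun i => Fintype.linearIndependent_iff.1 V.indep v h2 i

/-- The inverse of the matrix of periods. -/
def inv : Matrix (Fin d) (Fin d) ℂ := V.matrix⁻¹

theorem mul_inv : V.matrix * inv V = 1 :=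
  Matrix.mul_nonsing_inv _ (isUnit_iff_ne_zero.2 (det_matrix V))

theorem inv_mul : inv V * V.matrix = 1 :=
  Matrix.nonsing_inv_mul _ (isUnit_iff_ne_zero.2 (det_matrix V))

/-- The logarithmic derivative of the matrix of periods. -/
def XV (D : Derivation QBar ℂ ℂ) : Matrix (Fin d) (Fin d) ℂ := V.matrix.map (derQ D) * inv V

/-- The inverse of the matrix of periods of the sum. -/
def pinv (x : Fin n → ℂ) : Matrix (Idx n d) (Idx n d) ℂ :=
  Matrix.fromBlocks (Matrix.fromBlocks (Matrix.of fun _ _ => twoPiI⁻¹) 0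
    (Matrix.of fun j _ => -(x j * twoPiI⁻¹)) 1) 0 0 (inv V)

theorem twoPiI_eq : twoPiI = tau := rfl

theorem twoPiI_ne : twoPiI ≠ 0 := AbVar.tau_ne

theorem cyc_two (D : Derivation QBar ℂ ℂ) (lam : ℂ →ₗ[ℚ] ℚ) (x : ℂ) :
    cyc D lam x = lam (twoPiI⁻¹ * derQ D x) := rfl

theorem gen_two (D : Derivation QBar ℂ ℂ) (lam : ℂ →ₗ[ℚ] ℚ) :
    gen (XV V) D lam = (mp lam (XV V D), lam (twoPiI⁻¹ * derQ D twoPiI), cyc D lam) := rfl

theorem periods_pinv (x : Fin n → ℂ) : periods x V * pinv V x = 1 := by
  unfold periods pinv kummer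
  rw [Matrix.fromBlocks_multiply, Matrix.fromBlocks_multiply, mul_inv]
  ext i j
  rcases i with (i | i) | i <;> rcases j with (j | j) | j <;>
    simp [Matrix.fromBlocks, Matrix.mul_apply, Matrix.one_apply, twoPiI_ne]

theorem pinv_periods (x : Fin n → ℂ) : pinv V x * periods x V = 1 := by
  unfold periods pinv kummer
  rw [Matrix.fromBlocks_multiply, Matrix.fromBlocks_multiply, inv_mul]
  ext i j
  rcases i with (i | i) | i <;> rcases j with (j | j) | j <;>
    simp [Matrix.fromBlocks, Matrix.mul_apply, Matrix.one_apply, twoPiI_ne]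

theorem periods_der (x : Fin n → ℂ) (D : Derivation QBar ℂ ℂ) (lam : ℂ →ₗ[ℚ] ℚ) :
    ((periods x V).map (derQ D) * pinv V x).map (lamF lam) = emb x (gen (XV V) D lam) := by
  have h1 : (periods x V).map (derQ D) = Matrix.fromBlocks (Matrix.fromBlocks
      (Matrix.of fun _ _ => derQ D twoPiI) 0 (Matrix.of fun j _ => derQ D (x j)) 0) 0 0
      (V.matrix.map (derQ D)) := by
    ext i j
    rcases i with (i | i) | i <;> rcases j with (j | j) | j
    · simp [periods, kummer, Matrix.fromBlocks]
    · simp [periods, kummer, Matrix.fromBlocks]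
    · simp [periods, kummer, Matrix.fromBlocks]
    · simp [periods, kummer, Matrix.fromBlocks]
    · simp only [periods, kummer, Matrix.fromBlocks, Matrix.map_apply, Matrix.of_apply,
        Sum.elim_inl, Sum.elim_inr, Matrix.one_apply, Matrix.zero_apply]
      split_ifs <;> simp
    · simp [periods, kummer, Matrix.fromBlocks]
    · simp [periods, kummer, Matrix.fromBlocks]
    · simp [periods, kummer, Matrix.fromBlocks]
    · simp [periods, kummer, Matrix.fromBlocks]
  rw [h1, gen_two]
  unfold pinv emb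
  rw [Matrix.fromBlocks_multiply, Matrix.fromBlocks_multiply]
  ext i j
  rcases i with (i | i) | i <;> rcases j with (j | j) | j
  · simp [Matrix.fromBlocks, Matrix.mul_apply, lamF_apply, mul_comm]
  · simp [Matrix.fromBlocks, lamF_apply]
  · simp [Matrix.fromBlocks, lamF_apply]
  · simp [Matrix.fromBlocks, Matrix.mul_apply, lamF_apply, cyc_two, mul_comm]
  · simp [Matrix.fromBlocks, lamF_apply]
  · simp [Matrix.fromBlocks, lamF_apply]
  · simp [Matrix.fromBlocks, lamF_apply]
  · simp [Matrix.fromBlocks, lamF_apply]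
  · simp [Matrix.fromBlocks, lamF_apply, mp, XV]

/-! ### The group -/

variable {V} {H : Set (Matrix (Idx n d) (Idx n d) ℂ)} {x : Fin n → ℂ}

theorem emb_stab (hH : AlgGrp QQ H) {T T' : Matrix (Idx n d) (Idx n d) ℂ} (h1 : T * T' = 1)
    (h2 : ∀ i j, T' i j ∈ QA) (h3 : periods x V * T ∈ H) {a : Elt d} (ha : a ∈ LL (XV V)) (k : ℕ) :
    Stab H k (emb x a) := by
  let S : Submodule ℚ (Elt d) :=
    { carrier := {a | ∀ k, Stab H k (emb x a)}
      zero_mem' := fun k => by
        rw [emb_zero]
        exact Stab.zero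
      add_mem' := fun {a b} ha hb k => by
        rw [emb_add]
        exact (ha k).add (hb k)
      smul_mem' := fun c a ha k => by
        rw [emb_smul]
        exact (ha k).smul _ }
  have h4 : LL (XV V) ≤ S := LL_le (fun a ha b hb k => by
      rw [emb_br]
      exact (ha k).comm (hb k)) fun D lam k => by
    rw [← periods_der]
    refine hH.stab_map (lamF lam) ?_
    exact hH.stab_der QQ_le_QA (fun x hx => mem_QA.1 hx) (periods_pinv V x) (pinv_periods V x)
      h1 h2 h3 (derQ D)
  exact h4 ha k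

theorem splits (V : Structure d) : SplitsOff V (Gam (XV V)) := by
  classical
  intro n x hx c hc G hG ⟨T, hT, y, hy, hyT⟩
  have hH := algGrp_of hG
  have hdet : T.det ≠ 0 := by
    intro h0
    have h1 : (y : Matrix (Idx n d) (Idx n d) ℂ).det = 0 := by
      rw [hyT, Matrix.det_mul, h0, mul_zero]
    exact (Matrix.GeneralLinearGroup.det y).ne_zero h1
  obtain ⟨T', h1, h2⟩ := Pool.Agent.R917.OM.alg_inv' hT hdet
  -- the rational vectors
  let K : Submodule ℚ (Fin n → ℚ) :=
    { carrier := {k | ∃ a ∈ LL (XV V), a.1 = 0 ∧ a.2.1 = 0 ∧ ∀ i, a.2.2 (x i) = k i}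
      zero_mem' := ⟨0, Submodule.zero_mem _, rfl, rfl, fun i => rfl⟩
      add_mem' := by
        rintro k k' ⟨a, ha, ha1, ha2, ha3⟩ ⟨b, hb, hb1, hb2, hb3⟩
        refine ⟨a + b, Submodule.add_mem _ ha hb, ?_, ?_, fun i => ?_⟩
        · rw [Prod.fst_add, ha1, hb1, add_zero]
        · rw [Prod.snd_add, Prod.fst_add, ha2, hb2, add_zero]
        · rw [Pi.add_apply, ← ha3, ← hb3]
          rfl
      smul_mem' := by
        rintro q k ⟨a, ha, ha1, ha2, ha3⟩
        refine ⟨q • a, Submodule.smul_mem _ q ha, ?_, ?_, fun i => ?_⟩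
        · rw [Prod.smul_fst, ha1, smul_zero]
        · rw [Prod.smul_snd, Prod.smul_fst, ha2, smul_zero]
        · rw [Pi.smul_apply, ← ha3]
          rfl }
  have h3 := mem_span_of_rel K (c := c) fun q hq => by
    refine hc q ⟨?_, fun a ha h4 h5 => ?_⟩
    · refine Submodule.sum_mem _ fun i _ => ?_
      have h4 : (q i : ℂ) * x i = q i • x i := by
        rw [Algebra.smul_def]
        rfl
      rw [h4]
      exact Logs.smul_mem _ (hx i)
    · have h6 := hq (fun i => a.2.2 (x i)) ⟨a, ha, h4, h5, fun i => rfl⟩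
      rw [map_sum, ← h6]
      refine Finset.sum_congr rfl fun i _ => ?_
      have h4 : (q i : ℂ) * x i = q i • x i := by
        rw [Algebra.smul_def]
        rfl
      rw [h4, map_smul, smul_eq_mul]
  have h4 : ∀ k, Stab {M : Matrix (Idx n d) (Idx n d) ℂ | ∃ x ∈ G,
      (x : Matrix (Idx n d) (Idx n d) ℂ) = M} k (nn d c) := by
    intro k
    clear hc
    induction h3 using Submodule.span_induction with
    | mem v hv =>
      obtain ⟨w, ⟨a, ha, ha1, ha2, ha3⟩, rfl⟩ := hv
      have h5 : nn d (fun i => ((w i : ℚ) : ℂ)) = emb x a := by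
        unfold nn emb
        rw [ha1, ha2]
        ext i j
        rcases i with (i | i) | i <;> rcases j with (j | j) | j <;>
          simp [Matrix.fromBlocks, ha3]
      rw [h5]
      exact emb_stab hH h1 h2 ⟨y, hy, hyT⟩ ha k
    | zero =>
      rw [nn_zero]
      exact Stab.zero
    | add u v _ _ hu hv =>
      rw [nn_add]
      exact hu.add hv
    | smul a u _ hu =>
      rw [nn_smul]
      exact hu.smul a
  have h5 := pres_of_stab (ε := 0) (by rw [nn_sq, zero_smul]) h4 1
  have h6 : (1 + (1 : ℂ) • nn d c) * (1 - nn d c) = 1 := by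
    rw [one_smul, add_mul, one_mul, mul_sub, mul_one, nn_sq, sub_zero, sub_add_cancel]
  have h7 : (1 - nn d c) * (1 + (1 : ℂ) • nn d c) = 1 := by
    rw [one_smul, sub_mul, one_mul, mul_add, mul_one, nn_sq, add_zero, add_sub_cancel_right]
  have h8 := hH.mem_of_pres h5 h6 h7
  obtain ⟨z, hz, hz'⟩ := h8
  exact ⟨z, hz, by rw [hz', translation_eq]⟩

end Pool.Agent.V8H93.LK
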