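import Pool.Agent.W516.Cartan

set_option autoImplicit false
set_option linter.unusedSectionVars false

/-!
# Characters of Lie algebras which act semisimply
-/

open Module

noncomputable section

namespace Pool.Agent.V8H93.LK

open Pool.Agent.W516.KC

variable {k W : Type} [Field k] [CharZero k] [AddCommGroup W] [Module k W] [FiniteDimensional k W]

/-- The centre. -/
def cen (𝔥 : Submodule k (Module.End k W)) : Submodule k (Module.End k W) where
  carrier := {Z | Z ∈ 𝔥 ∧ ∀ Y ∈ 𝔥, Y * Z = Z * Y}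
  zero_mem' := ⟨Submodule.zero_mem _, fun Y _ => by rw [mul_zero, zero_mul]⟩
  add_mem' := by
    rintro a b ⟨ha, ha'⟩ ⟨hb, hb'⟩
    exact ⟨Submodule.add_mem _ ha hb, fun Y hY => by rw [mul_add, add_mul, ha' Y hY, hb' Y hY]⟩
  smul_mem' := by
    rintro c a ⟨ha, ha'⟩
    exact ⟨Submodule.smul_mem _ c ha, fun Y hY => by
      rw [mul_smul_comm, smul_mul_assoc, ha' Y hY]⟩

/-- A nonzero character of a Lie algebra which acts semisimply does not vanish on the centre. -/
theorem exists_central (𝔥 : Submodule k (Module.End k W)) (hss : Semi 𝔥)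
    (hbr : ∀ X ∈ 𝔥, ∀ Y ∈ 𝔥, X * Y - Y * X ∈ 𝔥) (w : 𝔥 →ₗ[k] k)
    (hw : ∀ X Y : 𝔥, ∀ Z : 𝔥, Z.1 = X.1 * Y.1 - Y.1 * X.1 → w Z = 0) (hw0 : w ≠ 0) :
    ∃ Z : 𝔥, (∀ Y ∈ 𝔥, Y * Z.1 = Z.1 * Y) ∧ w Z ≠ 0 := by
  classical
  by_contra hcon
  push Not at hcon
  -- the algebra generated by the centre
  let K : Subalgebra k (Module.End k W) := Algebra.adjoin k (cen 𝔥 : Set (Module.End k W))
  have hzK : ∀ Z ∈ cen 𝔥, Z ∈ K := fun Z hZ => Algebra.subset_adjoin hZ
  -- elements of the algebra commute with everything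
  have hKh : ∀ c ∈ K, ∀ Y ∈ 𝔥, Y * c = c * Y := by
    intro c hc Y hY
    induction hc using Algebra.adjoin_induction with
    | mem x hx => exact hx.2 Y hY
    | algebraMap r => exact (Algebra.commutes r Y).symm
    | add x y _ _ hx hy => rw [mul_add, add_mul, hx, hy]
    | mul x y _ _ hx hy => rw [← mul_assoc, hx, mul_assoc, hy, mul_assoc]
  have hKK : ∀ c ∈ K, ∀ c' ∈ K, c * c' = c' * c := by
    intro c hc c' hc'
    induction hc' using Algebra.adjoin_induction with
    | mem x hx => exact (hKh c hc x hx.1).symm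
    | algebraMap r => exact (Algebra.commutes r c).symm
    | add x y _ _ hx hy => rw [mul_add, add_mul, hx, hy]
    | mul x y _ _ hx hy => rw [← mul_assoc, hx, mul_assoc, hy, mul_assoc]
  let 𝔥' : Submodule k (Module.End k W) := 𝔥 ⊔ Subalgebra.toSubmodule K
  have hdec : ∀ X ∈ 𝔥', ∃ h ∈ 𝔥, ∃ c ∈ K, X = h + c := by
    intro X hX
    obtain ⟨h, hh, c, hc, rfl⟩ := Submodule.mem_sup.1 hX
    exact ⟨h, hh, c, hc, rfl⟩
  have hle : 𝔥 ≤ 𝔥' := le_sup_left
  have hKle : ∀ c ∈ K, c ∈ 𝔥' := fun c hc => (le_sup_right : Subalgebra.toSubmodule K ≤ 𝔥') hc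
  have hbr0 : ∀ X ∈ 𝔥', ∀ Y ∈ 𝔥', ∃ h ∈ 𝔥, ∃ h' ∈ 𝔥, X * Y - Y * X = h * h' - h' * h := by
    intro X hX Y hY
    obtain ⟨h, hh, c, hc, rfl⟩ := hdec X hX
    obtain ⟨h', hh', c', hc', rfl⟩ := hdec Y hY
    refine ⟨h, hh, h', hh', ?_⟩
    have e1 := hKh c hc h' hh'
    have e2 := hKh c' hc' h hh
    have e3 := hKK c hc c' hc'
    simp only [add_mul, mul_add]
    rw [e1, e2, e3]
    abel
  have hbr' : ∀ X ∈ 𝔥', ∀ Y ∈ 𝔥', X * Y - Y * X ∈ 𝔥' := by
    intro X hX Y hY
    obtain ⟨h, hh, h', hh', e⟩ := hbr0 X hX Y hY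
    rw [e]
    exact hle (hbr h hh h' hh')
  have hss' : Semi 𝔥' := by
    intro U hU
    obtain ⟨U', h1, h2⟩ := hss U fun X hX u hu => hU X (hle hX) u hu
    refine ⟨U', fun X hX u hu => ?_, h2⟩
    have hKU : ∀ c ∈ K, ∀ u ∈ U', c u ∈ U' := by
      intro c hc
      induction hc using Algebra.adjoin_induction with
      | mem x hx => exact fun u hu => h1 x hx.1 u hu
      | algebraMap r => exact fun u hu => U'.smul_mem r hu
      | add x y _ _ hx hy => exact fun u hu => U'.add_mem (hx u hu) (hy u hu)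
      | mul x y _ _ hx hy => exact fun u hu => hx _ (hy u hu)
    obtain ⟨h, hh, c, hc, rfl⟩ := hdec X hX
    exact U'.add_mem (h1 h hh u hu) (hKU c hc u hu)
  -- elements which commute with everything are in the algebra
  have hcen : ∀ X ∈ 𝔥', (∀ Y ∈ 𝔥', Y * X = X * Y) → X ∈ K := by
    intro X hX hXc
    obtain ⟨h, hh, c, hc, rfl⟩ := hdec X hX
    have h1 : h ∈ cen 𝔥 := ⟨hh, fun Y hY => by
      have h2 := hXc Y (hle hY)
      have h3 := hKh c hc Y hY
      rw [mul_add, add_mul, h3] at h2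
      exact add_right_cancel h2⟩
    exact K.add_mem (hzK h h1) hc
  -- elements of the algebra orthogonal to the algebra are zero
  have hK0 : ∀ X ∈ K, (∀ c ∈ K, LinearMap.trace k W (c * X) = 0) → X = 0 := by
    intro X hX h0
    have hpK : ∀ p : Polynomial k, Polynomial.aeval X p ∈ K := fun p =>
      (Algebra.adjoin_le (Set.singleton_subset_iff.2 hX) : Algebra.adjoin k {X} ≤ K)
        (Polynomial.aeval_mem_adjoin_singleton k X)
    have hn : IsNilpotent X := isNilpotent_of_trace X fun p => h0 _ (hpK p)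
    have hXc : ∀ Y ∈ 𝔥', Y * X = X * Y := by
      intro Y hY
      obtain ⟨h, hh, c, hc, rfl⟩ := hdec Y hY
      rw [mul_add, add_mul, hKh X hX h hh, hKK c hc X hX]
    refine eq_zero_of_nilpotent 𝔥' (Submodule.span k {X}) hss' ?_ ?_ ?_ ?_ X
      (Submodule.mem_span_singleton_self X)
    · rw [Submodule.span_singleton_le_iff_mem]
      exact hKle X hX
    · intro A hA B hB
      obtain ⟨a, rfl⟩ := Submodule.mem_span_singleton.1 hA
      obtain ⟨b, rfl⟩ := Submodule.mem_span_singleton.1 hB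
      rw [smul_mul_smul_comm, smul_mul_smul_comm, mul_comm b a, sub_self]
      exact Submodule.zero_mem _
    · intro A hA B hB
      obtain ⟨b, rfl⟩ := Submodule.mem_span_singleton.1 hB
      rw [mul_smul_comm, smul_mul_assoc, hXc A hA, sub_self]
      exact Submodule.zero_mem _
    · intro A hA
      obtain ⟨a, rfl⟩ := Submodule.mem_span_singleton.1 hA
      exact hn.smul a
  -- the trace form is nondegenerate
  have hnd : ∀ X ∈ 𝔥', (∀ Y ∈ 𝔥', LinearMap.trace k W (X * Y) = 0) → X = 0 := by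
    intro X hX h0
    have h1 := hcen X hX (central_of_trace 𝔥' hss' hbr' hX h0)
    refine hK0 X h1 fun c hc => ?_
    rw [LinearMap.trace_mul_comm]
    exact h0 c (hKle c hc)
  -- the extension of the character
  obtain ⟨f, hf1, hf2⟩ : ∃ f : Module.Dual k (Module.End k W), (∀ X : 𝔥, f X = w X) ∧
      ∀ c ∈ K, f c = 0 := by
    let π : 𝔥 →ₗ[k] (Module.End k W ⧸ Subalgebra.toSubmodule K) :=
      (Subalgebra.toSubmodule K).mkQ.comp 𝔥.subtype
    have h1 : w ∈ LinearMap.range π.dualMap := by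
      rw [LinearMap.range_dualMap_eq_dualAnnihilator_ker, Submodule.mem_dualAnnihilator]
      intro X hX
      rw [LinearMap.mem_ker] at hX
      change (Subalgebra.toSubmodule K).mkQ X.1 = 0 at hX
      rw [Submodule.mkQ_apply, Submodule.Quotient.mk_eq_zero] at hX
      exact hcon X fun Y hY => hKh X.1 hX Y hY
    obtain ⟨g, hg⟩ := h1
    refine ⟨g.comp (Subalgebra.toSubmodule K).mkQ, fun X => ?_, fun c hc => ?_⟩
    · rw [← hg]
      rfl
    · rw [LinearMap.comp_apply, Submodule.mkQ_apply, (Submodule.Quotient.mk_eq_zero _).2 hc,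
        map_zero]
  -- the element
  let Bf : 𝔥' →ₗ[k] Module.Dual k 𝔥' :=
    { toFun := fun Y =>
        { toFun := fun X => LinearMap.trace k W (X.1 * Y.1)
          map_add' := fun X X' => by
            change LinearMap.trace k W ((X.1 + X'.1) * Y.1) = _
            rw [add_mul, map_add]
          map_smul' := fun c X => by
            change LinearMap.trace k W ((c • X.1) * Y.1) = _
            rw [smul_mul_assoc, map_smul]
            rfl }
      map_add' := fun Y Y' => by
        refine LinearMap.ext fun X => ?_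
        change LinearMap.trace k W (X.1 * (Y.1 + Y'.1)) = LinearMap.trace k W (X.1 * Y.1) +
          LinearMap.trace k W (X.1 * Y'.1)
        rw [mul_add, map_add]
      map_smul' := fun c Y => by
        refine LinearMap.ext fun X => ?_
        change LinearMap.trace k W (X.1 * (c • Y.1)) = c • LinearMap.trace k W (X.1 * Y.1)
        rw [mul_smul_comm, map_smul] }
  have hBf : ∀ X Y : 𝔥', Bf Y X = LinearMap.trace k W (X.1 * Y.1) := fun X Y => rfl
  have hinj : Function.Injective Bf := by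
    rw [injective_iff_map_eq_zero]
    intro Y hY
    apply Subtype.ext
    refine hnd Y.1 Y.2 fun X hX => ?_
    rw [LinearMap.trace_mul_comm, ← hBf ⟨X, hX⟩ Y, hY, LinearMap.zero_apply]
  have hsur : Function.Surjective Bf :=
    (LinearMap.injective_iff_surjective_of_finrank_eq_finrank
      (Subspace.dual_finrank_eq (K := k) (V := 𝔥')).symm).1 hinj
  obtain ⟨y, hy⟩ := hsur (f.comp 𝔥'.subtype)
  have hy' : ∀ X ∈ 𝔥', LinearMap.trace k W (X * y.1) = f X := by
    intro X hX
    rw [← hBf ⟨X, hX⟩ y, hy]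
    rfl
  have hyc : ∀ Y ∈ 𝔥', Y * y.1 = y.1 * Y := by
    intro Y hY
    rw [← sub_eq_zero]
    refine hnd _ (hbr' Y hY y.1 y.2) fun X hX => ?_
    have h1 : LinearMap.trace k W ((Y * y.1 - y.1 * Y) * X) =
        LinearMap.trace k W ((X * Y - Y * X) * y.1) := by
      have e1 : LinearMap.trace k W (Y * y.1 * X) = LinearMap.trace k W (X * Y * y.1) := by
        rw [LinearMap.trace_mul_comm, mul_assoc]
      have e2 : LinearMap.trace k W (y.1 * Y * X) = LinearMap.trace k W (Y * X * y.1) := by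
        rw [mul_assoc, LinearMap.trace_mul_comm]
      rw [sub_mul, sub_mul, map_sub, map_sub, e1, e2]
    rw [h1, hy' _ (hbr' X hX Y hY)]
    obtain ⟨h, hh, h', hh', e⟩ := hbr0 X hX Y hY
    rw [e, hf1 ⟨_, hbr h hh h' hh'⟩]
    exact hw ⟨h, hh⟩ ⟨h', hh'⟩ _ rfl
  have hyK := hcen y.1 y.2 hyc
  have hy0 : y.1 = 0 := hK0 y.1 hyK fun c hc => by rw [hy' c (hKle c hc), hf2 c hc]
  apply hw0
  refine LinearMap.ext fun X => ?_
  rw [← hf1, ← hy' X.1 (hle X.2), hy0, mul_zero, map_zero, LinearMap.zero_apply]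

end Pool.Agent.V8H93.LK
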