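import Pool.Agent.V8H93.LK.Grp
import Pool.Agent.V8H93.LK.Cen

set_option autoImplicit false
set_option linter.unusedSectionVars false

/-!
# Semisimple structures
-/

open Module Matrix TensorProduct

noncomputable section

namespace Pool.Agent.V8H93.LK

open Pool.Agent.Y102 Pool.Agent.R917 Pool.Agent.W516.DR Pool.Agent.TH119.MX Pool.Agent.W516.KC

variable {d : ℕ} (V : Structure d)

/-- The basis of the de Rham side. -/
def ηV : Basis (Fin d) ℂ ((Fin d → ℚ) →ₗ[ℚ] ℂ) :=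
  basisOfLinearIndependentOfCardEqFinrank' V.dR V.indep (by
    rw [Fintype.card_fin, Module.finrank_linearMap_self, Module.finrank_fin_fun])

theorem coe_ηV (i : Fin d) : ηV V i = V.dR i := by
  unfold ηV
  rw [coe_basisOfLinearIndependentOfCardEqFinrank']

theorem XX_single' (D : Derivation QBar ℂ ℂ) (j : Fin d) :
    XX (ηV V) D ((1 : ℂ) ⊗ₜ[ℚ] (Pi.single j 1 : Fin d → ℚ)) =
      ∑ i, (XV V D) j i ⊗ₜ[ℚ] (Pi.single i 1 : Fin d → ℚ) := by
  refine ext_etaL (ηV V) fun k => ?_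
  rw [etaL_XX_one, map_sum]
  have h3 : ∀ i, etaL (ηV V) k ((XV V D) j i ⊗ₜ[ℚ] (Pi.single i 1 : Fin d → ℚ)) =
      (XV V D) j i * V.matrix i k := by
    intro i
    rw [etaL_tmul, coe_ηV]
    rfl
  rw [Finset.sum_congr rfl fun i _ => h3 i]
  have h4 : ∑ i, (XV V D) j i * V.matrix i k = (XV V D * V.matrix) j k := (Matrix.mul_apply).symm
  rw [h4]
  unfold XV
  rw [Matrix.mul_assoc, inv_mul, Matrix.mul_one, Matrix.map_apply, coe_ηV]
  rfl

/-- The action of a matrix on the homology. -/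
def ρ : Matrix (Fin d) (Fin d) ℚ →ₗ[ℚ] Module.End ℚ (Fin d → ℚ) where
  toFun Y := Matrix.toLin' Yᵀ
  map_add' Y Y' := by rw [Matrix.transpose_add, map_add]
  map_smul' c Y := by rw [Matrix.transpose_smul, map_smul]; rfl

theorem ρ_mul (Y Y' : Matrix (Fin d) (Fin d) ℚ) : ρ (Y * Y') = ρ Y' * ρ Y := by
  change Matrix.toLin' (Y * Y')ᵀ = Matrix.toLin' Y'ᵀ * Matrix.toLin' Yᵀ
  rw [Matrix.transpose_mul, Matrix.toLin'_mul]
  rfl

theorem ρ_inj {Y Y' : Matrix (Fin d) (Fin d) ℚ} (h : ρ Y = ρ Y') : Y = Y' :=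
  Matrix.transpose_injective (Matrix.toLin'.injective h)

/-- The logarithmic derivatives act as the generators. -/
theorem X0_eq (D : Derivation QBar ℂ ℂ) (lam : ℂ →ₗ[ℚ] ℚ) :
    Pool.Agent.W516.DR.X0 (ηV V) (1 : ℂ) D lam = ρ (mp lam (XV V D)) := by
  refine (Pi.basisFun ℚ (Fin d)).ext fun j => ?_
  rw [Pi.basisFun_apply, X0_apply, Derivation.map_one_eq_zero, zero_div, map_zero, zero_smul,
    sub_zero, XX_single', map_sum]
  funext i
  rw [Finset.sum_apply, Finset.sum_eq_single i]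
  · rw [cmp_tmul, Pi.smul_apply, Pi.single_eq_same, smul_eq_mul, mul_one]
    change _ = ((mp lam (XV V D))ᵀ *ᵥ Pi.single j 1) i
    rw [Matrix.mulVec_single_one]
    rfl
  · intro b _ hb
    rw [cmp_tmul, Pi.smul_apply, Pi.single_eq_of_ne hb.symm, smul_zero]
  · intro h
    exact absurd (Finset.mem_univ _) h

/-- The Lie algebra of the structure. -/
def hh : Submodule ℚ (Module.End ℚ (Fin d → ℚ)) := (LV (XV V)).map ρ

theorem mem_hh {a : Elt d} (ha : a ∈ LL (XV V)) : ρ a.1 ∈ hh V := ⟨_, ⟨a, ha, rfl⟩, rfl⟩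

theorem hh_br : ∀ X ∈ hh V, ∀ Y ∈ hh V, X * Y - Y * X ∈ hh V := by
  rintro _ ⟨_, ⟨a, ha, rfl⟩, rfl⟩ _ ⟨_, ⟨b, hb, rfl⟩, rfl⟩
  refine ⟨_, ⟨br b a, LL_br hb ha, rfl⟩, ?_⟩
  change ρ (b.1 * a.1 - a.1 * b.1) = ρ a.1 * ρ b.1 - ρ b.1 * ρ a.1
  rw [map_sub, ρ_mul, ρ_mul]

theorem stable_iff (U : Submodule ℚ (Fin d → ℚ)) :
    (∀ X ∈ hh V, ∀ u ∈ U, X u ∈ U) ↔ V.IsSub U := by
  have hs : V.IsSub U ↔ IsDeRhamBettiSubspace QBar (ηV V : Fin d → ((Fin d → ℚ) →ₗ[ℚ] ℂ)) U := by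
    rw [show (ηV V : Fin d → ((Fin d → ℚ) →ₗ[ℚ] ℂ)) = V.dR from funext (coe_ηV V)]
    rfl
  rw [hs]
  constructor
  · intro h
    refine sub_of_stable (ηV V) (τ := 1) U fun D lam u hu => ?_
    rw [X0_eq]
    exact h _ (mem_hh V (gen_mem D lam)) u hu
  · rintro h _ ⟨_, ⟨a, ha, rfl⟩, rfl⟩
    let S : Submodule ℚ (Elt d) :=
      { carrier := {a | ∀ u ∈ U, ρ a.1 u ∈ U}
        zero_mem' := fun u hu => by
          change ρ 0 u ∈ U
          rw [map_zero]
          exact U.zero_mem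
        add_mem' := fun {a b} ha hb u hu => by
          change ρ (a.1 + b.1) u ∈ U
          rw [map_add]
          exact U.add_mem (ha u hu) (hb u hu)
        smul_mem' := fun c a ha u hu => by
          change ρ (c • a.1) u ∈ U
          rw [map_smul]
          exact U.smul_mem c (ha u hu) }
    have h1 : LL (XV V) ≤ S := LL_le (fun a ha b hb u hu => by
        change ρ (a.1 * b.1 - b.1 * a.1) u ∈ U
        rw [map_sub, ρ_mul, ρ_mul]
        exact U.sub_mem (hb _ (ha u hu)) (ha _ (hb u hu))) fun D lam u hu => by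
      change ρ (mp lam (XV V D)) u ∈ U
      rw [← X0_eq]
      exact stable_of_sub (ηV V) (τ := 1) U h D lam hu
    exact h1 ha

theorem semi_hh (h : V.Semisimple) : Semi (hh V) := by
  intro U hU
  obtain ⟨U', h1, h2⟩ := h U ((stable_iff V U).1 hU)
  exact ⟨U', (stable_iff V U').2 h1, h2⟩

/-- There is a central element with nonzero weight. -/
theorem exists_cen (h : V.Semisimple) : ∃ z ∈ LL (XV V), z.2.1 = 1 ∧
    ∀ a ∈ LL (XV V), a.1 * z.1 = z.1 * a.1 := by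
  classical
  by_cases hA : ∃ a ∈ LL (XV V), a.1 = 0 ∧ a.2.1 ≠ 0
  · obtain ⟨a, ha, h1, h2⟩ := hA
    refine ⟨a.2.1⁻¹ • a, Submodule.smul_mem _ _ ha, ?_, fun b _ => ?_⟩
    · change a.2.1⁻¹ * a.2.1 = 1
      rw [inv_mul_cancel₀ h2]
    · change b.1 * (a.2.1⁻¹ • a.1) = (a.2.1⁻¹ • a.1) * b.1
      rw [h1, smul_zero, mul_zero, zero_mul]
  · push Not at hA
    -- the section
    obtain ⟨f, hf⟩ : ∃ f : LL (XV V) →ₗ[ℚ] hh V, ∀ a : LL (XV V),
        (f a : Module.End ℚ (Fin d → ℚ)) = ρ a.1.1 :=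
      ⟨(ρ.comp (LinearMap.fst ℚ _ _)).restrict fun a ha => mem_hh V ha, fun a => rfl⟩
    have hfs : Function.Surjective f := by
      rintro ⟨_, _, ⟨a, ha, rfl⟩, rfl⟩
      exact ⟨⟨a, ha⟩, Subtype.ext (hf _)⟩
    have hfree := Module.Free.of_divisionRing ℚ (hh V)
    have hproj : Module.Projective ℚ (hh V) := Module.Projective.of_free
    obtain ⟨s, hs⟩ := f.exists_rightInverse_of_surjective (LinearMap.range_eq_top.2 hfs)
    have hs' : ∀ Y : hh V, ρ (s Y).1.1 = Y := fun Y => by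
      rw [← hf, ← LinearMap.comp_apply, hs, LinearMap.id_apply]
    let w : hh V →ₗ[ℚ] ℚ :=
      { toFun := fun Y => (s Y).1.2.1
        map_add' := fun Y Y' => by
          rw [map_add]
          rfl
        map_smul' := fun c Y => by
          rw [map_smul]
          rfl }
    have hw : ∀ (a : LL (XV V)) (Y : hh V), ρ a.1.1 = Y → a.1.2.1 = w Y := by
      intro a Y hY
      have h1 := hA (a.1 - (s Y).1) (Submodule.sub_mem _ a.2 (s Y).2) (by
        change a.1.1 - (s Y).1.1 = 0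
        rw [ρ_inj (hY.trans (hs' Y).symm), sub_self])
      exact sub_eq_zero.1 h1
    obtain ⟨Z, hZ, hwZ⟩ := exists_central (hh V) (semi_hh V h) (hh_br V) w (fun X Y Z hZ => by
      have h1 := hw ⟨br (s Y).1 (s X).1, LL_br (s Y).2 (s X).2⟩ Z (by
        change ρ ((s Y).1.1 * (s X).1.1 - (s X).1.1 * (s Y).1.1) = Z
        rw [map_sub, ρ_mul, ρ_mul, hs', hs', hZ])
      exact h1.symm) (by
      intro h0
      obtain ⟨z, hz, hz1⟩ := exists_one (X := XV V)
      have h1 := hw ⟨z, hz⟩ ⟨_, mem_hh V hz⟩ rfl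
      rw [h0, LinearMap.zero_apply] at h1
      change z.2.1 = 0 at h1
      rw [hz1] at h1
      exact one_ne_zero h1)
    refine ⟨(w Z)⁻¹ • (s Z).1, Submodule.smul_mem _ _ (s Z).2, ?_, fun a ha => ?_⟩
    · change (w Z)⁻¹ * w Z = 1
      rw [inv_mul_cancel₀ hwZ]
    · change a.1 * ((w Z)⁻¹ • (s Z).1.1) = ((w Z)⁻¹ • (s Z).1.1) * a.1
      rw [mul_smul_comm, smul_mul_assoc]
      congr 1
      apply ρ_inj
      rw [ρ_mul, ρ_mul, hs']
      exact (hZ _ (mem_hh V ha)).symm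

theorem Gam_semi (h : V.Semisimple) : Gam (XV V) = Submodule.span ℚ {twoPiI} := by
  apply le_antisymm
  · intro x hx
    obtain ⟨z, hz, hz1, hzc⟩ := exists_cen V h
    have h1 : ∀ a ∈ LL (XV V), a.2.2 x = a.2.1 * z.2.2 x := by
      intro a ha
      have h2 := hx.2 (br a z) (LL_br ha hz) (by
        change a.1 * z.1 - z.1 * a.1 = 0
        rw [hzc a ha, sub_self]) rfl
      change z.2.1 * a.2.2 x - a.2.1 * z.2.2 x = 0 at h2
      rwa [hz1, one_mul, sub_eq_zero] at h2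
    have h2 : x - z.2.2 x • twoPiI = 0 := by
      refine log_zero (Submodule.sub_mem _ hx.1 (Submodule.smul_mem _ _ tau_mem_Logs))
        (alg_of_LL (X := XV V) fun a ha => ?_)
      rw [map_sub, map_smul, show a.2.2 twoPiI = a.2.1 from LL_tau ha, h1 a ha, smul_eq_mul]
      ring
    rw [sub_eq_zero] at h2
    rw [h2]
    exact Submodule.smul_mem _ _ (Submodule.mem_span_singleton_self _)
  · rw [Submodule.span_singleton_le_iff_mem]
    exact tau_mem_Gam

theorem splits_semi (h : V.Semisimple) : SplitsOff V (Submodule.span ℚ {twoPiI}) := by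
  rw [← Gam_semi V h]
  exact splits V

end Pool.Agent.V8H93.LK
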