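import Mathlib

set_option autoImplicit false
set_option linter.unusedSectionVars false

/-!
# The matrices `Y` with `Y Z - Z Y = Y`
-/

open Module

noncomputable section

namespace Pool.Agent.V8H93.LK

section Comb

/-- A relation between indices of neighbouring colours. -/
theorem card_pairs {β : Type*} [Fintype β] [DecidableEq β] (c : β → ℂ) (S : Finset (β × β))
    (hS : ∀ p ∈ S, c p.1 = c p.2 - 1) : 4 * S.card ≤ Fintype.card β ^ 2 := by
  classical
  let e : β → Prop := fun i => Even ⌊(c i).re⌋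
  have he : ∀ p ∈ S, (e p.1 ↔ ¬ e p.2) := by
    intro p hp
    have h1 := hS p hp
    have h2 : ⌊(c p.1).re⌋ = ⌊(c p.2).re⌋ - 1 := by
      rw [h1, Complex.sub_re, Complex.one_re, Int.floor_sub_one]
    change Even ⌊(c p.1).re⌋ ↔ ¬ Even ⌊(c p.2).re⌋
    rw [h2, Int.even_sub_one]
  have hns : ∀ p ∈ S, (p.2, p.1) ∉ S := by
    intro p hp hp'
    have h1 := hS p hp
    have h2 := hS _ hp'
    simp only at h2
    rw [h2] at h1
    have h3 : (2 : ℂ) = 0 := by linear_combination h1
    exact two_ne_zero h3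
  let I₀ : Finset β := Finset.univ.filter e
  let I₁ : Finset β := Finset.univ.filter fun i => ¬ e i
  have hcard : I₀.card + I₁.card = Fintype.card β := by
    have := Finset.card_filter_add_card_filter_not (s := (Finset.univ : Finset β)) e
    rwa [Finset.card_univ] at this
  have hle : S.card ≤ (I₀ ×ˢ I₁).card := by
    refine Finset.card_le_card_of_injOn (fun p => if e p.1 then p else (p.2, p.1)) ?_ ?_
    · intro p hp
      beta_reduce
      by_cases h : e p.1
      · have h2 := (he p hp).1 h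
        rw [if_pos h, Finset.mem_coe, Finset.mem_product]
        exact ⟨Finset.mem_filter.2 ⟨Finset.mem_univ _, h⟩, Finset.mem_filter.2 ⟨Finset.mem_univ _, h2⟩⟩
      · have h2 : e p.2 := by
          by_contra h3
          exact h ((he p hp).2 h3)
        rw [if_neg h, Finset.mem_coe, Finset.mem_product]
        exact ⟨Finset.mem_filter.2 ⟨Finset.mem_univ _, h2⟩, Finset.mem_filter.2 ⟨Finset.mem_univ _, h⟩⟩
    · intro p hp q hq hpq
      simp only at hpq
      by_cases h : e p.1 <;> by_cases h' : e q.1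
      · rwa [if_pos h, if_pos h'] at hpq
      · rw [if_pos h, if_neg h'] at hpq
        exfalso
        apply hns q hq
        rw [← hpq]
        exact hp
      · rw [if_neg h, if_pos h'] at hpq
        exfalso
        apply hns p hp
        rw [hpq]
        exact hq
      · rw [if_neg h, if_neg h'] at hpq
        exact Prod.ext (congrArg Prod.snd hpq) (congrArg Prod.fst hpq)
  rw [Finset.card_product] at hle
  rw [← hcard]
  nlinarith [sq_nonneg ((I₀.card : ℤ) - I₁.card), four_mul_le_sq_add I₀.card I₁.card]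

end Comb

section Bound

variable {V : Type} [AddCommGroup V] [Module ℂ V] [FiniteDimensional ℂ V]

/-- The space of the endomorphisms `Y` with `Y Z - Z Y = Y`. -/
def eig (Z : Module.End ℂ V) : Submodule ℂ (Module.End ℂ V) where
  carrier := {Y | Y * Z - Z * Y = Y}
  zero_mem' := by simp
  add_mem' := by
    intro a b ha hb
    simp only [Set.mem_ofPred_eq] at ha hb ⊢
    rw [add_mul, mul_add, add_sub_add_comm, ha, hb]
  smul_mem' := by
    intro c a ha
    simp only [Set.mem_ofPred_eq] at ha ⊢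
    rw [smul_mul_assoc, mul_smul_comm, ← smul_sub, ha]

theorem mem_eig {Z Y : Module.End ℂ V} : Y ∈ eig Z ↔ Y * Z - Z * Y = Y := Iff.rfl

theorem shift_pow {Z Y : Module.End ℂ V} (h : Y * Z - Z * Y = Y) (μ : ℂ) (k : ℕ) :
    Y * (Z - μ • 1) ^ k = (Z - (μ - 1) • 1) ^ k * Y := by
  have h1 : Y * (Z - μ • 1) = (Z - (μ - 1) • 1) * Y := by
    have h2 : Y * Z = Y + Z * Y := by rw [← sub_eq_iff_eq_add, h]
    rw [mul_sub, sub_mul, h2, mul_smul_comm, smul_mul_assoc, mul_one, one_mul]
    module
  induction k with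
  | zero => simp
  | succ k ih => rw [pow_succ, ← mul_assoc, ih, mul_assoc, h1, ← mul_assoc, ← pow_succ]

theorem shift_mem {Z Y : Module.End ℂ V} (h : Y * Z - Z * Y = Y) {μ : ℂ} {v : V}
    (hv : v ∈ Z.maxGenEigenspace μ) : Y v ∈ Z.maxGenEigenspace (μ - 1) := by
  rw [Module.End.mem_maxGenEigenspace] at hv ⊢
  obtain ⟨k, hk⟩ := hv
  refine ⟨k, ?_⟩
  have h1 := congrArg (fun T : Module.End ℂ V => T v) (shift_pow h μ k)
  simp only [Module.End.mul_apply] at h1
  rw [← h1, hk, map_zero]

theorem finrank_eig (Z : Module.End ℂ V) : 4 * finrank ℂ (eig Z) ≤ finrank ℂ V ^ 2 := by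
  classical
  have hI : DirectSum.IsInternal fun μ => Z.maxGenEigenspace μ :=
    DirectSum.isInternal_submodule_of_iSupIndep_of_iSup_eq_top
      Z.independent_maxGenEigenspace (Module.End.iSup_maxGenEigenspace_eq_top Z)
  let v : ∀ μ, Basis (Fin (finrank ℂ (Z.maxGenEigenspace μ))) ℂ (Z.maxGenEigenspace μ) :=
    fun μ => Module.finBasis ℂ _
  let b := hI.collectedBasis v
  have : Finite (Σ μ : ℂ, Fin (finrank ℂ (Z.maxGenEigenspace μ))) := Module.Finite.finite_basis b
  have : Fintype (Σ μ : ℂ, Fin (finrank ℂ (Z.maxGenEigenspace μ))) := Fintype.ofFinite _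
  let β := Σ μ : ℂ, Fin (finrank ℂ (Z.maxGenEigenspace μ))
  let S : Finset (β × β) := Finset.univ.filter fun p => p.1.1 = p.2.1 - 1
  have hb : ∀ i : β, b i ∈ Z.maxGenEigenspace i.1 := fun i => by
    have := hI.collectedBasis_mem v i
    exact this
  let Φ : eig Z →ₗ[ℂ] (S → ℂ) :=
    { toFun := fun Y p => b.repr (Y.1 (b p.1.2)) p.1.1
      map_add' := fun Y Y' => by
        funext p
        simp
      map_smul' := fun c Y => by
        funext p
        simp }
  have hΦ : Function.Injective Φ := by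
    rw [injective_iff_map_eq_zero]
    intro Y hY
    apply Subtype.ext
    refine b.ext fun j => ?_
    apply b.repr.injective
    change b.repr (Y.1 (b j)) = b.repr 0
    rw [map_zero]
    ext i
    rw [Finsupp.zero_apply]
    by_cases hij : i.1 = j.1 - 1
    · have h1 := congrFun hY ⟨(i, j), Finset.mem_filter.2 ⟨Finset.mem_univ _, hij⟩⟩
      exact h1
    · have h1 := shift_mem Y.2 (hb j)
      exact hI.collectedBasis_repr_of_mem_ne v (fun h => hij h.symm) h1
  have h1 := LinearMap.finrank_le_finrank_of_injective hΦ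
  rw [Module.finrank_fintype_fun_eq_card, Fintype.card_coe] at h1
  have h2 := card_pairs (fun i : β => i.1) S fun p hp => (Finset.mem_filter.1 hp).2
  have h3 : finrank ℂ V = Fintype.card β := Module.finrank_eq_card_basis b
  rw [h3]
  exact (Nat.mul_le_mul_left 4 h1).trans h2

end Bound

section Rat

variable {d : ℕ}

/-- Rational matrices which are linearly independent over the rational numbers. -/
theorem indep_map {ι : Type} [Fintype ι] {Y : ι → Matrix (Fin d) (Fin d) ℚ}
    (hY : LinearIndependent ℚ Y) :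
    LinearIndependent ℂ fun i => (Y i).map (algebraMap ℚ ℂ) := by
  rw [Fintype.linearIndependent_iff] at hY ⊢
  intro c hc
  have h1 : ∀ lam : ℂ →ₗ[ℚ] ℚ, ∀ i, lam (c i) = 0 := by
    intro lam
    apply hY
    ext a b
    have h2 := congrArg lam (congrFun (congrFun hc a) b)
    rw [Matrix.sum_apply, Matrix.zero_apply, map_zero, map_sum] at h2
    rw [Matrix.sum_apply, Matrix.zero_apply, ← h2]
    refine Finset.sum_congr rfl fun i _ => ?_
    rw [Matrix.smul_apply, Matrix.smul_apply, Matrix.map_apply, smul_eq_mul, smul_eq_mul,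
      mul_comm (c i), ← Algebra.smul_def, map_smul, smul_eq_mul, mul_comm]
  intro i
  exact (Module.forall_dual_apply_eq_zero_iff ℚ (c i)).1 fun lam => h1 lam i

/-- The space of the rational matrices `Y` with `Y Z - Z Y = Y`. -/
def eigQ (Z : Matrix (Fin d) (Fin d) ℚ) : Submodule ℚ (Matrix (Fin d) (Fin d) ℚ) where
  carrier := {Y | Y * Z - Z * Y = Y}
  zero_mem' := by simp
  add_mem' := by
    intro a b ha hb
    simp only [Set.mem_ofPred_eq] at ha hb ⊢
    rw [add_mul, mul_add, add_sub_add_comm, ha, hb]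
  smul_mem' := by
    intro c a ha
    simp only [Set.mem_ofPred_eq] at ha ⊢
    rw [smul_mul_assoc, mul_smul_comm, ← smul_sub, ha]

theorem mem_eigQ {Z Y : Matrix (Fin d) (Fin d) ℚ} : Y ∈ eigQ Z ↔ Y * Z - Z * Y = Y := Iff.rfl

theorem finrank_eigQ (Z : Matrix (Fin d) (Fin d) ℚ) : 4 * finrank ℚ (eigQ Z) ≤ d ^ 2 := by
  classical
  let b := Module.finBasis ℚ (eigQ Z)
  have h1 : LinearIndependent ℚ fun i => (b i : Matrix (Fin d) (Fin d) ℚ) :=
    b.linearIndependent.map' (eigQ Z).subtype (Submodule.ker_subtype _)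
  have h2 := indep_map h1
  let Z' : Module.End ℂ (Fin d → ℂ) := Matrix.toLin' (Z.map (algebraMap ℚ ℂ))
  have h3 : ∀ i, Matrix.toLin' ((b i : Matrix (Fin d) (Fin d) ℚ).map (algebraMap ℚ ℂ)) ∈
      eig Z' := by
    intro i
    have h4 : (b i : Matrix (Fin d) (Fin d) ℚ) * Z - Z * (b i : Matrix (Fin d) (Fin d) ℚ) =
      (b i : Matrix (Fin d) (Fin d) ℚ) := (b i).2
    have h5 := congrArg (fun M : Matrix (Fin d) (Fin d) ℚ => M.map (algebraMap ℚ ℂ)) h4
    beta_reduce at h5
    rw [mem_eig]
    change Matrix.toLin' _ * Matrix.toLin' _ - Matrix.toLin' _ * Matrix.toLin' _ = _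
    rw [Module.End.mul_eq_comp, Module.End.mul_eq_comp, ← Matrix.toLin'_mul, ← Matrix.toLin'_mul,
      ← map_sub]
    congr 1
    rw [← Matrix.map_mul, ← Matrix.map_mul, ← h5]
    ext a c
    rw [Matrix.sub_apply, Matrix.map_apply, Matrix.map_apply, Matrix.map_apply, Matrix.sub_apply,
      map_sub]
  have h4 : LinearIndependent ℂ fun i => (⟨_, h3 i⟩ : eig Z') := by
    apply LinearIndependent.of_comp (eig Z').subtype
    exact h2.map' (Matrix.toLin' (R := ℂ) (m := Fin d) (n := Fin d)).toLinearMap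
      (LinearEquiv.ker _)
  have h5 := h4.fintype_card_le_finrank
  rw [Fintype.card_fin] at h5
  have h6 := finrank_eig Z'
  rw [Module.finrank_fin_fun] at h6
  omega

end Rat

end Pool.Agent.V8H93.LK
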