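import Pool.Agent.R917.MT
import Pool.Agent.R917.OM.Grp
import Pool.Agent.V8H93.LK.Eig

set_option autoImplicit false
set_option linter.unusedSectionVars false

/-!
# The universal Lie algebra of a de Rham-Betti structure and of all Kummer structures
-/

open Module Matrix

noncomputable section

namespace Pool.Agent.V8H93.LK

open Pool.Agent.Y102 Pool.Agent.R917 Pool.Agent.W516.DR

/-- The elements: endomorphisms of the structure, of the Tate twist, and the cocycles of the numbers. -/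
abbrev Elt (d : ℕ) : Type := Matrix (Fin d) (Fin d) ℚ × ℚ × (ℂ →ₗ[ℚ] ℚ)

variable {d : ℕ}

/-- The bracket. -/
def br (a b : Elt d) : Elt d :=
  (a.1 * b.1 - b.1 * a.1, 0, b.2.1 • a.2.2 - a.2.1 • b.2.2)

/-- The cocycle given by a derivation and a linear form. -/
def cyc (D : Derivation QBar ℂ ℂ) (lam : ℂ →ₗ[ℚ] ℚ) : ℂ →ₗ[ℚ] ℚ :=
  lam.comp ((LinearMap.mulLeft ℚ (tau⁻¹ : ℂ)).comp (derQ D : ℂ →ₗ[ℚ] ℂ))

theorem cyc_apply (D : Derivation QBar ℂ ℂ) (lam : ℂ →ₗ[ℚ] ℚ) (x : ℂ) :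
    cyc D lam x = lam (tau⁻¹ * D x) := rfl

/-- A matrix with values under a linear form. -/
def mp (lam : ℂ →ₗ[ℚ] ℚ) (M : Matrix (Fin d) (Fin d) ℂ) : Matrix (Fin d) (Fin d) ℚ :=
  Matrix.of fun i j => lam (M i j)

variable (X : Derivation QBar ℂ ℂ → Matrix (Fin d) (Fin d) ℂ)

/-- The generators. -/
def gen (D : Derivation QBar ℂ ℂ) (lam : ℂ →ₗ[ℚ] ℚ) : Elt d :=
  (mp lam (X D), cyc D lam tau, cyc D lam)

/-- The Lie algebra. -/
def LL : Submodule ℚ (Elt d) :=
  sInf {S | (∀ a ∈ S, ∀ b ∈ S, br a b ∈ S) ∧ ∀ D lam, gen X D lam ∈ S}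

variable {X}

theorem LL_le {S : Submodule ℚ (Elt d)} (h1 : ∀ a ∈ S, ∀ b ∈ S, br a b ∈ S)
    (h2 : ∀ D lam, gen X D lam ∈ S) : LL X ≤ S := sInf_le ⟨h1, h2⟩

theorem LL_br {a b : Elt d} (ha : a ∈ LL X) (hb : b ∈ LL X) : br a b ∈ LL X := by
  unfold LL at ha hb ⊢
  rw [Submodule.mem_sInf] at ha hb ⊢
  exact fun S hS => hS.1 a (ha S hS) b (hb S hS)

theorem gen_mem (D : Derivation QBar ℂ ℂ) (lam : ℂ →ₗ[ℚ] ℚ) : gen X D lam ∈ LL X := by
  unfold LL
  rw [Submodule.mem_sInf]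
  exact fun S hS => hS.2 D lam

/-- The cocycle of `2 π i` is the action on the Tate twist. -/
theorem LL_tau {a : Elt d} (ha : a ∈ LL X) : a.2.2 tau = a.2.1 := by
  let S : Submodule ℚ (Elt d) :=
    { carrier := {a | a.2.2 tau = a.2.1}
      zero_mem' := rfl
      add_mem' := fun {a b} ha hb => by
        change a.2.2 tau + b.2.2 tau = a.2.1 + b.2.1
        rw [show a.2.2 tau = a.2.1 from ha, show b.2.2 tau = b.2.1 from hb]
      smul_mem' := fun c a ha => by
        change c * a.2.2 tau = c * a.2.1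
        rw [show a.2.2 tau = a.2.1 from ha] }
  have h1 : LL X ≤ S := LL_le (fun a ha b hb => by
    change b.2.1 * a.2.2 tau - a.2.1 * b.2.2 tau = 0
    rw [show a.2.2 tau = a.2.1 from ha, show b.2.2 tau = b.2.1 from hb]
    ring) fun D lam => rfl
  exact h1 ha

theorem tau_trans : ¬ IsAlgebraic ℚ (tau : ℂ) := by
  intro h
  have h2 : IsAlgebraic ℚ (2 * Complex.I : ℂ) := by
    refine IsAlgebraic.mul (isAlgebraic_algebraMap (R := ℚ) (A := ℂ) 2) ?_
    refine ⟨Polynomial.X ^ 2 + 1, ?_, ?_⟩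
    · intro h0
      have h3 := congrArg (Polynomial.eval (1 : ℚ)) h0
      norm_num at h3
    · simp
  have h3 : IsAlgebraic ℚ (Real.pi : ℂ) := by
    have h4 : (Real.pi : ℂ) = tau * (2 * Complex.I)⁻¹ := by
      have h5 : (tau : ℂ) = 2 * Real.pi * Complex.I := rfl
      rw [h5]
      field_simp
    rw [h4]
    exact h.mul h2.inv
  exact Pool.Agent.H340R2.LW.transcendental_pi_complex h3

/-- A number is algebraic if it is killed by all cocycles of the generators. -/
theorem alg_of_gen {x : ℂ} (h : ∀ D lam, cyc D lam x = 0) : IsAlgebraic ℚ x := by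
  have h1 : ∀ D : Derivation QBar ℂ ℂ, D x = 0 := by
    intro D
    have h2 : tau⁻¹ * D x = 0 :=
      (Module.forall_dual_apply_eq_zero_iff ℚ _).1 fun lam => h D lam
    exact (mul_eq_zero.1 h2).resolve_left (inv_ne_zero AbVar.tau_ne)
  obtain ⟨y, rfl⟩ := mem_of_derivation h1
  exact QBar.alg y

theorem alg_of_LL {x : ℂ} (h : ∀ a ∈ LL X, a.2.2 x = 0) : IsAlgebraic ℚ x :=
  alg_of_gen fun D lam => h _ (gen_mem D lam)

/-- There is an element with action one on the Tate twist. -/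
theorem exists_one : ∃ z ∈ LL X, z.2.1 = 1 := by
  by_contra hcon
  push Not at hcon
  apply tau_trans
  refine alg_of_LL (X := X) fun a ha => ?_
  rw [LL_tau ha]
  by_contra hne
  refine hcon (a.2.1⁻¹ • a) (Submodule.smul_mem _ _ ha) ?_
  change a.2.1⁻¹ * a.2.1 = 1
  rw [inv_mul_cancel₀ hne]

/-! ### The logarithms -/

/-- The logarithms of algebraic numbers. -/
def Logs : Submodule ℚ ℂ where
  carrier := {x | IsAlgebraic ℚ (Complex.exp x)}
  zero_mem' := by
    change IsAlgebraic ℚ (Complex.exp 0)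
    rw [Complex.exp_zero]
    exact isAlgebraic_one
  add_mem' := by
    intro a b ha hb
    change IsAlgebraic ℚ (Complex.exp (a + b))
    rw [Complex.exp_add]
    exact IsAlgebraic.mul ha hb
  smul_mem' := by
    intro q x hx
    change IsAlgebraic ℚ (Complex.exp (q • x))
    have h1 : Complex.exp (q • x) ^ q.den = Complex.exp x ^ q.num := by
      rw [← Complex.exp_nat_mul, ← Complex.exp_int_mul]
      congr 1
      rw [Algebra.smul_def]
      change (q.den : ℂ) * ((q : ℂ) * x) = q.num * x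
      have h2 : (q.den : ℂ) * q = q.num := by
        have h3 := Rat.den_mul_eq_num q
        exact_mod_cast h3
      rw [← mul_assoc, h2]
    have h2 : IsAlgebraic ℚ (Complex.exp x ^ q.num) := by
      rcases q.num with m | m
      · exact (show IsAlgebraic ℚ (Complex.exp x) from hx).pow m
      · rw [zpow_negSucc]
        exact ((show IsAlgebraic ℚ (Complex.exp x) from hx).pow _).inv
    rw [← h1] at h2
    exact (isAlgebraic_iff_isIntegral.2 ((isAlgebraic_iff_isIntegral.1 h2).of_pow q.den_pos))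

theorem mem_Logs {x : ℂ} : x ∈ Logs ↔ IsAlgebraic ℚ (Complex.exp x) := Iff.rfl

theorem tau_mem_Logs : (tau : ℂ) ∈ Logs := by
  rw [mem_Logs]
  have h5 : (tau : ℂ) = 2 * Real.pi * Complex.I := rfl
  rw [h5, Complex.exp_two_pi_mul_I]
  exact isAlgebraic_one

/-- An algebraic logarithm is zero (Lindemann). -/
theorem log_zero {x : ℂ} (hx : x ∈ Logs) (h : IsAlgebraic ℚ x) : x = 0 := by
  by_contra hne
  exact Pool.Agent.H340R2.LW.transcendental_cexp x h hne hx

/-! ### The exceptional logarithms -/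

variable (X) in
/-- The exceptional logarithms. -/
def Gam : Submodule ℚ ℂ where
  carrier := {x | x ∈ Logs ∧ ∀ a ∈ LL X, a.1 = 0 → a.2.1 = 0 → a.2.2 x = 0}
  zero_mem' := ⟨Logs.zero_mem, fun a _ _ _ => map_zero _⟩
  add_mem' := by
    rintro x y ⟨hx, hx'⟩ ⟨hy, hy'⟩
    refine ⟨Logs.add_mem hx hy, fun a ha h1 h2 => ?_⟩
    rw [map_add, hx' a ha h1 h2, hy' a ha h1 h2, add_zero]
  smul_mem' := by
    rintro c x ⟨hx, hx'⟩
    refine ⟨Logs.smul_mem c hx, fun a ha h1 h2 => ?_⟩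
    rw [map_smul, hx' a ha h1 h2, smul_zero]

theorem Gam_le : Gam X ≤ Logs := fun _ h => h.1

theorem tau_mem_Gam : (tau : ℂ) ∈ Gam X :=
  ⟨tau_mem_Logs, fun a ha _ h2 => by rw [LL_tau ha, h2]⟩

/-- The matrices. -/
def LV (X : Derivation QBar ℂ ℂ → Matrix (Fin d) (Fin d) ℂ) :
    Submodule ℚ (Matrix (Fin d) (Fin d) ℚ) := (LL X).map (LinearMap.fst ℚ _ _)

variable (X) in
/-- The exceptional logarithms killed by a given element. -/
def TT (z : Elt d) : Submodule ℚ ℂ where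
  carrier := {x | x ∈ Gam X ∧ z.2.2 x = 0}
  zero_mem' := ⟨(Gam X).zero_mem, map_zero _⟩
  add_mem' := by
    rintro x y ⟨hx, hx'⟩ ⟨hy, hy'⟩
    exact ⟨(Gam X).add_mem hx hy, by rw [map_add, hx', hy', add_zero]⟩
  smul_mem' := by
    rintro c x ⟨hx, hx'⟩
    exact ⟨(Gam X).smul_mem c hx, by rw [map_smul, hx', smul_zero]⟩

/-- The cocycle factors through the action on the structure. -/
theorem TT_fac {z : Elt d} (hz : z ∈ LL X) (hz1 : z.2.1 = 1) {x : ℂ} (hx : x ∈ TT X z)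
    {a : Elt d} (ha : a ∈ LL X) (h0 : a.1 = 0) : a.2.2 x = 0 := by
  have h1 := hx.1.2 (br a z) (LL_br ha hz) (by
    change a.1 * z.1 - z.1 * a.1 = 0
    rw [h0, zero_mul, mul_zero, sub_zero]) rfl
  change z.2.1 * a.2.2 x - a.2.1 * z.2.2 x = 0 at h1
  rwa [hz1, hx.2, mul_zero, sub_zero, one_mul] at h1

/-- The bracket with the element. -/
theorem TT_br {z : Elt d} (hz1 : z.2.1 = 1) {x : ℂ} (hx : x ∈ TT X z) (a : Elt d) :
    (br a z).2.2 x = a.2.2 x := by
  change z.2.1 * a.2.2 x - a.2.1 * z.2.2 x = a.2.2 x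
  rw [hz1, hx.2, mul_zero, sub_zero, one_mul]

/-- **The bound.** -/
theorem finrank_TT {z : Elt d} (hz : z ∈ LL X) (hz1 : z.2.1 = 1) :
    FiniteDimensional ℚ (TT X z) ∧ 4 * finrank ℚ (TT X z) ≤ d ^ 2 := by
  classical
  -- the section
  obtain ⟨f, hf⟩ : ∃ f : LL X →ₗ[ℚ] LV X, ∀ a : LL X, (f a : Matrix (Fin d) (Fin d) ℚ) = a.1.1 :=
    ⟨(LinearMap.fst ℚ _ _).restrict fun a ha => Submodule.mem_map_of_mem ha, fun a => rfl⟩
  have hfs : Function.Surjective f := by
    rintro ⟨_, a, ha, rfl⟩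
    exact ⟨⟨a, ha⟩, Subtype.ext (hf _)⟩
  obtain ⟨s, hs⟩ := f.exists_rightInverse_of_surjective (LinearMap.range_eq_top.2 hfs)
  have hs' : ∀ Y : LV X, (s Y).1.1 = Y := fun Y => by
    rw [← hf, ← LinearMap.comp_apply, hs, LinearMap.id_apply]
  let Φ : TT X z →ₗ[ℚ] Module.Dual ℚ (LV X) :=
    { toFun := fun x =>
        { toFun := fun Y => (s Y).1.2.2 x
          map_add' := fun Y Y' => by
            rw [map_add]
            rfl
          map_smul' := fun c Y => by
            rw [map_smul]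
            rfl }
      map_add' := fun x y => by
        refine LinearMap.ext fun Y => ?_
        exact map_add (s Y).1.2.2 (x : ℂ) (y : ℂ)
      map_smul' := fun c x => by
        refine LinearMap.ext fun Y => ?_
        exact map_smul (s Y).1.2.2 c (x : ℂ) }
  have hΦ : ∀ (x : TT X z) (Y : LV X), Φ x Y = (s Y).1.2.2 x := fun x Y => rfl
  -- compatibility
  have hfac : ∀ (x : TT X z) (a : LL X) (Y : LV X), a.1.1 = Y → a.1.2.2 x = Φ x Y := by
    intro x a Y h
    have h1 := TT_fac hz hz1 x.2 (a := a.1 - (s Y).1) (Submodule.sub_mem _ a.2 (s Y).2) (by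
      change a.1.1 - (s Y).1.1 = 0
      rw [hs', h, sub_self])
    change a.1.2.2 x - (s Y).1.2.2 x = 0 at h1
    rw [hΦ]
    exact sub_eq_zero.1 h1
  have hinj : Function.Injective Φ := by
    rw [injective_iff_map_eq_zero]
    intro x hx
    apply Subtype.ext
    refine log_zero x.2.1.1 (alg_of_LL (X := X) fun a ha => ?_)
    rw [hfac x ⟨a, ha⟩ (f ⟨a, ha⟩) (hf _).symm, hx]
    rfl
  have hfin : FiniteDimensional ℚ (TT X z) := Module.Finite.of_injective Φ hinj
  refine ⟨hfin, ?_⟩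
  -- the endomorphism
  have hzV : z.1 ∈ LV X := ⟨z, hz, rfl⟩
  have hbr : ∀ Y ∈ LV X, Y * z.1 - z.1 * Y ∈ LV X := by
    rintro _ ⟨a, ha, rfl⟩
    exact ⟨br a z, LL_br ha hz, rfl⟩
  obtain ⟨E, hE⟩ : ∃ E : LV X →ₗ[ℚ] LV X, ∀ Y : LV X, (E Y : Matrix (Fin d) (Fin d) ℚ) =
      (Y.1 * z.1 - z.1 * Y.1) - Y.1 :=
    ⟨{ toFun := fun Y => ⟨(Y.1 * z.1 - z.1 * Y.1) - Y.1, Submodule.sub_mem _ (hbr _ Y.2) Y.2⟩
       map_add' := fun Y Y' => by
        apply Subtype.ext
        change ((Y.1 + Y'.1) * z.1 - z.1 * (Y.1 + Y'.1)) - (Y.1 + Y'.1) =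
          ((Y.1 * z.1 - z.1 * Y.1) - Y.1) + ((Y'.1 * z.1 - z.1 * Y'.1) - Y'.1)
        rw [add_mul, mul_add]
        abel
       map_smul' := fun c Y => by
        apply Subtype.ext
        change ((c • Y.1) * z.1 - z.1 * (c • Y.1)) - (c • Y.1) =
          c • ((Y.1 * z.1 - z.1 * Y.1) - Y.1)
        rw [smul_mul_assoc, mul_smul_comm, smul_sub, smul_sub] }, fun Y => rfl⟩
  have hker : ∀ x : TT X z, Φ x ∈ LinearMap.ker E.dualMap := by
    intro x
    rw [LinearMap.mem_ker]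
    refine LinearMap.ext fun Y => ?_
    rw [LinearMap.dualMap_apply, LinearMap.zero_apply]
    have h1 := hfac x ⟨br (s Y).1 z, LL_br (s Y).2 hz⟩ (E Y + Y) (by
      change (s Y).1.1 * z.1 - z.1 * (s Y).1.1 = _
      rw [hs']
      change _ = (E Y : Matrix (Fin d) (Fin d) ℚ) + Y.1
      rw [hE, sub_add_cancel])
    rw [TT_br hz1 x.2, ← hΦ, map_add] at h1
    exact left_eq_add.1 (by rw [add_comm]; exact h1)
  have h1 : finrank ℚ (TT X z) ≤ finrank ℚ (LinearMap.ker E.dualMap) := by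
    refine LinearMap.finrank_le_finrank_of_injective (f := Φ.codRestrict _ hker) ?_
    intro x y hxy
    exact hinj (congrArg (fun u : LinearMap.ker E.dualMap => (u : Module.Dual ℚ (LV X))) hxy)
  have h2 : finrank ℚ (LinearMap.ker E.dualMap) = finrank ℚ (LinearMap.ker E) := by
    have e1 := E.dualMap.finrank_range_add_finrank_ker
    have e2 := E.finrank_range_add_finrank_ker
    rw [LinearMap.finrank_range_dualMap_eq_finrank_range, Subspace.dual_finrank_eq] at e1
    omega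
  have h3 : finrank ℚ (LinearMap.ker E) ≤ finrank ℚ (eigQ z.1) := by
    refine LinearMap.finrank_le_finrank_of_injective
      (f := ((LV X).subtype.comp (LinearMap.ker E).subtype).codRestrict (eigQ z.1) ?_) ?_
    · intro Y
      rw [mem_eigQ]
      have h4 := hE Y.1
      rw [LinearMap.mem_ker.1 Y.2] at h4
      change (0 : Matrix (Fin d) (Fin d) ℚ) = _ at h4
      exact sub_eq_zero.1 h4.symm
    · intro Y Y' h
      have h4 := congrArg (fun u : eigQ z.1 => (u : Matrix (Fin d) (Fin d) ℚ)) h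
      exact Subtype.ext (Subtype.ext h4)
  have h4 := finrank_eigQ z.1
  omega

theorem finrank_Gam : FiniteDimensional ℚ (Gam X) ∧ finrank ℚ (Gam X) ≤ 1 + d ^ 2 / 4 := by
  obtain ⟨z, hz, hz1⟩ := exists_one (X := X)
  obtain ⟨h1, h2⟩ := finrank_TT hz hz1
  have h3 : Gam X ≤ TT X z ⊔ Submodule.span ℚ {(tau : ℂ)} := by
    intro x hx
    have h4 : x = (x - z.2.2 x • (tau : ℂ)) + z.2.2 x • (tau : ℂ) := by
      rw [sub_add_cancel]
    rw [h4]
    refine Submodule.add_mem_sup ⟨Submodule.sub_mem _ hx (Submodule.smul_mem _ _ tau_mem_Gam), ?_⟩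
      (Submodule.smul_mem _ _ (Submodule.mem_span_singleton_self _))
    rw [map_sub, map_smul, LL_tau hz, hz1, smul_eq_mul, mul_one, sub_self]
  have h4 : FiniteDimensional ℚ (Submodule.span ℚ {(tau : ℂ)}) :=
    FiniteDimensional.span_singleton ℚ _
  have h5 : FiniteDimensional ℚ (TT X z ⊔ Submodule.span ℚ {(tau : ℂ)} : Submodule ℚ ℂ) :=
    inferInstance
  refine ⟨Submodule.finiteDimensional_of_le h3, ?_⟩
  have h6 := Submodule.finrank_mono h3
  have h7 := Submodule.finrank_add_le_finrank_add_finrank (TT X z)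
    (Submodule.span ℚ {(tau : ℂ)})
  have h8 := finrank_span_singleton (K := ℚ) (v := (tau : ℂ)) AbVar.tau_ne
  omega

end Pool.Agent.V8H93.LK
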