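import Pool.Agent.V8H93.LK.Semi

set_option autoImplicit false
set_option linter.unusedSectionVars false

/-!
# The bound is sharp
-/

open Module Matrix

noncomputable section

namespace Pool.Agent.V8H93.LK

/-! ### Logarithms of prime numbers -/

theorem padic_prod {ι : Type} [DecidableEq ι] (p : ℕ) [Fact p.Prime] (s : Finset ι) (f : ι → ℚ)
    (hf : ∀ i, f i ≠ 0) : padicValRat p (∏ i ∈ s, f i) = ∑ i ∈ s, padicValRat p (f i) := by
  induction s using Finset.induction_on with
  | empty => simp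
  | insert a s ha ih =>
    rw [Finset.prod_insert ha, Finset.sum_insert ha,
      padicValRat.mul (hf a) (Finset.prod_ne_zero_iff.2 fun i _ => hf i), ih]

theorem log_primes {ι : Type} [Fintype ι] [DecidableEq ι] {p : ι → ℕ} (hp : ∀ i, (p i).Prime)
    (hinj : Function.Injective p) (n : ι → ℤ) (h : ∑ i, (n i : ℝ) * Real.log (p i) = 0) (j : ι) :
    n j = 0 := by
  have hpos : ∀ i, (0 : ℝ) < p i := fun i => by exact_mod_cast (hp i).pos
  have h1 : (∏ i, ((p i : ℚ) ^ (n i)) : ℚ) = 1 := by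
    have h2 : ((∏ i, ((p i : ℚ) ^ (n i)) : ℚ) : ℝ) = 1 := by
      rw [Rat.cast_prod]
      have h3 : ∀ i, (((p i : ℚ) ^ (n i) : ℚ) : ℝ) = Real.exp ((n i : ℝ) * Real.log (p i)) := by
        intro i
        rw [Rat.cast_zpow, Rat.cast_natCast, mul_comm, Real.exp_mul, Real.exp_log (hpos i),
          Real.rpow_intCast]
      rw [Finset.prod_congr rfl fun i _ => h3 i, ← Real.exp_sum, h, Real.exp_zero]
    exact_mod_cast h2
  have : Fact (p j).Prime := ⟨hp j⟩
  have h2 := congrArg (padicValRat (p j)) h1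
  rw [padic_prod (p j) Finset.univ _ (fun i => zpow_ne_zero _ (by exact_mod_cast (hp i).ne_zero)),
    padicValRat.one, Finset.sum_eq_single j] at h2
  · rw [padicValRat.zpow, padicValRat.self (hp j).one_lt,
      mul_one] at h2
    exact h2
  · intro i _ hij
    rw [padicValRat.zpow]
    have : Fact (p i).Prime := ⟨hp i⟩
    have h3 : padicValRat (p j) (p i : ℚ) = 0 := by
      rw [padicValRat.of_nat, padicValNat_primes (fun h => hij (hinj h).symm)]
      rfl
    rw [h3, mul_zero]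
  · intro h
    exact absurd (Finset.mem_univ _) h

theorem log_primes_rat {ι : Type} [Fintype ι] [DecidableEq ι] {p : ι → ℕ} (hp : ∀ i, (p i).Prime)
    (hinj : Function.Injective p) (q : ι → ℚ) (h : ∑ i, (q i : ℝ) * Real.log (p i) = 0) (j : ι) :
    q j = 0 := by
  let N : ℕ := ∏ i, (q i).den
  have hN : (N : ℚ) ≠ 0 := by
    have h1 : N ≠ 0 := Finset.prod_ne_zero_iff.2 fun i _ => (q i).den_nz
    exact_mod_cast h1
  have h1 : ∀ i, ∃ m : ℤ, (m : ℚ) = q i * N := by
    intro i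
    refine ⟨(q i).num * (∏ k ∈ Finset.univ.erase i, (q k).den : ℕ), ?_⟩
    have h2 : (N : ℚ) = (q i).den * (∏ k ∈ Finset.univ.erase i, (q k).den : ℕ) := by
      rw [← Nat.cast_mul, Finset.mul_prod_erase Finset.univ (fun k => (q k).den) (Finset.mem_univ i)]
    rw [h2, ← mul_assoc, Rat.mul_den_eq_num]
    push_cast
    rfl
  choose m hm using h1
  have h2 := log_primes hp hinj m (by
    have h3 : ∀ i, (m i : ℝ) = (N : ℝ) * (q i : ℝ) := by
      intro i
      have h4 := congrArg (fun x : ℚ => (x : ℝ)) (hm i)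
      beta_reduce at h4
      push_cast at h4
      rw [h4, mul_comm]
    simp only [h3, mul_assoc]
    rw [← Finset.mul_sum, h, mul_zero]) j
  have h3 := hm j
  rw [h2, Int.cast_zero] at h3
  exact (mul_eq_zero.1 h3.symm).resolve_right hN

/-- `2 π i` and the logarithms of prime numbers. -/
def fam {ι : Type} (p : ι → ℕ) : Option ι → ℂ := fun o => o.elim twoPiI fun i => (Real.log (p i) : ℂ)

theorem indep_fam {ι : Type} [Fintype ι] [DecidableEq ι] {p : ι → ℕ} (hp : ∀ i, (p i).Prime)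
    (hinj : Function.Injective p) : LinearIndependent ℚ (fam p) := by
  rw [Fintype.linearIndependent_iff]
  intro q hq
  rw [Fintype.sum_option] at hq
  have h0 : ∀ (c : ℚ) (z : ℂ), c • z = ((c : ℝ) : ℂ) * z := by
    intro c z
    rw [Algebra.smul_def]
    norm_num
  have h1 : (q none : ℝ) * (2 * Real.pi) = 0 := by
    have h2 := congrArg Complex.im hq
    rw [Complex.add_im, Complex.im_sum, Complex.zero_im] at h2
    have h3 : ∀ i, (q (some i) • fam p (some i)).im = 0 := by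
      intro i
      rw [h0]
      change (((q (some i) : ℝ) : ℂ) * (Real.log (p i) : ℂ)).im = 0
      rw [← Complex.ofReal_mul, Complex.ofReal_im]
    rw [Finset.sum_eq_zero fun i _ => h3 i, add_zero, h0] at h2
    change (((q none : ℝ) : ℂ) * (2 * Real.pi * Complex.I)).im = 0 at h2
    have h4 : (((q none : ℝ) : ℂ) * (2 * Real.pi * Complex.I)) =
        (((q none : ℝ) * (2 * Real.pi) : ℝ) : ℂ) * Complex.I := by
      push_cast
      ring
    rw [h4, Complex.mul_I_im, Complex.ofReal_re] at h2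
    exact h2
  have h2 : q none = 0 := by
    have h3 := (mul_eq_zero.1 h1).resolve_right (by positivity)
    exact_mod_cast h3
  have h3 : ∑ i, (q (some i) : ℝ) * Real.log (p i) = 0 := by
    rw [h2, zero_smul, zero_add] at hq
    have h4 : ((∑ i, (q (some i) : ℝ) * Real.log (p i) : ℝ) : ℂ) = 0 := by
      rw [← hq, Complex.ofReal_sum]
      refine Finset.sum_congr rfl fun i _ => ?_
      rw [h0, Complex.ofReal_mul]
      rfl
    exact_mod_cast h4
  intro o
  rcases o with _ | i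
  · exact h2
  · exact log_primes_rat hp hinj (fun i => q (some i)) h3 i

/-! ### Structures from matrices -/

section Mat

variable {d : ℕ}

/-- The structure with a given matrix of periods. -/
def ofMatrix (Q Q' : Matrix (Fin d) (Fin d) ℂ) (h : Q' * Q = 1) : Structure d where
  dR i := (Pi.basisFun ℚ (Fin d)).constr ℚ fun j => Q j i
  indep := by
    rw [Fintype.linearIndependent_iff]
    intro c hc i
    have h1 : Q *ᵥ c = 0 := by
      funext j
      have h2 := congrArg (fun f : (Fin d → ℚ) →ₗ[ℚ] ℂ => f (Pi.basisFun ℚ (Fin d) j)) hc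
      beta_reduce at h2
      rw [LinearMap.sum_apply, LinearMap.zero_apply] at h2
      rw [Matrix.mulVec, dotProduct, Pi.zero_apply, ← h2]
      refine Finset.sum_congr rfl fun k _ => ?_
      rw [LinearMap.smul_apply, Basis.constr_basis, smul_eq_mul, mul_comm]
    have h2 : c = 0 := by
      rw [← Matrix.one_mulVec c, ← h, ← Matrix.mulVec_mulVec, h1, Matrix.mulVec_zero]
    rw [h2]
    rfl

theorem matrix_ofMatrix (Q Q' : Matrix (Fin d) (Fin d) ℂ) (h : Q' * Q = 1) :
    (ofMatrix Q Q' h).matrix = Q := by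
  ext j i
  change (Pi.basisFun ℚ (Fin d)).constr ℚ (fun j => Q j i) (Pi.single j 1) = Q j i
  rw [← Pi.basisFun_apply, Basis.constr_basis]

end Mat

/-! ### The groups -/

section Grps

variable {a b d : ℕ} (e : Fin b ⊕ Fin a ≃ Fin d) {R : Type} [CommRing R]

/-- The matrices of the second component. -/
def UU (μ : R) (u : Matrix (Fin a) (Fin b) R) : Matrix (Fin d) (Fin d) R :=
  (Matrix.fromBlocks (μ • (1 : Matrix (Fin b) (Fin b) R)) 0 u 1).submatrix e.symm e.symm

theorem UU_mul (μ μ' : R) (u u' : Matrix (Fin a) (Fin b) R) :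
    UU e μ u * UU e μ' u' = UU e (μ * μ') (μ' • u + u') := by
  unfold UU
  rw [Matrix.submatrix_mul_equiv, Matrix.fromBlocks_multiply]
  congr 2
  · rw [Matrix.zero_mul, add_zero, smul_mul_smul_comm, Matrix.one_mul]
  · simp
  · simp
  · simp

theorem UU_one : UU e (1 : R) (0 : Matrix (Fin a) (Fin b) R) = 1 := by
  unfold UU
  rw [one_smul, Matrix.fromBlocks_one, Matrix.submatrix_one_equiv]

variable [Algebra ℚ R]

/-- the entry of the first component -/
def yy (s : ℚ) (C : Matrix (Fin a) (Fin b) ℚ) (μ : R) (u : Matrix (Fin a) (Fin b) R) : R :=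
  algebraMap ℚ R s * (μ - 1) + ∑ i, ∑ j, algebraMap ℚ R (C i j) * u i j

theorem yy_mul (s : ℚ) (C : Matrix (Fin a) (Fin b) ℚ) (μ μ' : R) (u u' : Matrix (Fin a) (Fin b) R) :
    yy s C (μ * μ') (μ' • u + u') = yy s C μ u * μ' + yy s C μ' u' := by
  unfold yy
  have h1 : ∑ i, ∑ j, algebraMap ℚ R (C i j) * (μ' • u + u') i j =
      (∑ i, ∑ j, algebraMap ℚ R (C i j) * u i j) * μ' +
        ∑ i, ∑ j, algebraMap ℚ R (C i j) * u' i j := by
    rw [Finset.sum_mul, ← Finset.sum_add_distrib]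
    refine Finset.sum_congr rfl fun i _ => ?_
    rw [Finset.sum_mul, ← Finset.sum_add_distrib]
    refine Finset.sum_congr rfl fun j _ => ?_
    rw [Matrix.add_apply, Matrix.smul_apply, smul_eq_mul]
    ring
  rw [h1]
  ring

theorem yy_one (s : ℚ) (C : Matrix (Fin a) (Fin b) ℚ) :
    yy s C (1 : R) (0 : Matrix (Fin a) (Fin b) R) = 0 := by
  unfold yy
  simp

theorem yy_map {S : Type} [CommRing S] [Algebra ℚ S] (f : R →ₐ[ℚ] S) (s : ℚ)
    (C : Matrix (Fin a) (Fin b) ℚ) (μ : R) (u : Matrix (Fin a) (Fin b) R) :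
    f (yy s C μ u) = yy s C (f μ) (u.map f) := by
  unfold yy
  simp only [map_add, map_mul, map_sub, map_one, map_sum, AlgHom.commutes, Matrix.map_apply]

/-- The matrices of the group. -/
def MM (s : ℚ) (C : Matrix (Fin a) (Fin b) ℚ) (μ : R) (u : Matrix (Fin a) (Fin b) R) :
    Matrix (Idx 1 d) (Idx 1 d) R :=
  Matrix.fromBlocks (Matrix.fromBlocks (Matrix.of fun _ _ => μ) 0
    (Matrix.of fun _ _ => yy s C μ u) 1) 0 0 (UU e μ u)

variable (s : ℚ) (C : Matrix (Fin a) (Fin b) ℚ)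

theorem MM_mul (μ μ' : R) (u u' : Matrix (Fin a) (Fin b) R) :
    MM e s C μ u * MM e s C μ' u' = MM e s C (μ * μ') (μ' • u + u') := by
  unfold MM
  rw [Matrix.fromBlocks_multiply, Matrix.fromBlocks_multiply, UU_mul, yy_mul]
  ext i j
  rcases i with (i | i) | i <;> rcases j with (j | j) | j <;>
    simp [Matrix.fromBlocks, Matrix.mul_apply, mul_comm]

theorem MM_one : MM e s C (1 : R) 0 = 1 := by
  unfold MM
  rw [UU_one, yy_one]
  ext i j
  rcases i with (i | i) | i <;> rcases j with (j | j) | j <;>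
    simp [Matrix.fromBlocks, Matrix.one_apply]

theorem MM_map {S : Type} [CommRing S] [Algebra ℚ S] (f : R →ₐ[ℚ] S) (μ : R)
    (u : Matrix (Fin a) (Fin b) R) :
    (MM e s C μ u).map f = MM e s C (f μ) (u.map f) := by
  ext i j
  rcases i with (i | i) | i <;> rcases j with (j | j) | j
  · simp [MM, Matrix.fromBlocks]
  · simp [MM, Matrix.fromBlocks]
  · simp [MM, Matrix.fromBlocks]
  · simp [MM, Matrix.fromBlocks, yy_map]
  · simp [MM, Matrix.fromBlocks, Matrix.one_apply]
  · simp [MM, Matrix.fromBlocks]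
  · simp [MM, Matrix.fromBlocks]
  · simp [MM, Matrix.fromBlocks]
  · obtain ⟨i, rfl⟩ := e.surjective i
    obtain ⟨j, rfl⟩ := e.surjective j
    rcases i with i | i <;> rcases j with j | j
    · simp only [MM, UU, Matrix.fromBlocks, Matrix.map_apply, Matrix.of_apply, Sum.elim_inl,
        Sum.elim_inr, Matrix.submatrix_apply, Equiv.symm_apply_apply, Matrix.smul_apply,
        Matrix.one_apply, smul_eq_mul]
      split_ifs <;> simp
    · simp [MM, UU, Matrix.fromBlocks]
    · simp [MM, UU, Matrix.fromBlocks]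
    · simp only [MM, UU, Matrix.fromBlocks, Matrix.map_apply, Matrix.of_apply,
        Sum.elim_inr, Matrix.submatrix_apply, Equiv.symm_apply_apply, Matrix.one_apply]
      split_ifs <;> simp

/-- the entry of the Tate twist -/
def r0 (d : ℕ) : Idx 1 d := Sum.inl (Sum.inl ())

/-- the paths -/
def rp (i : Fin a) : Idx 1 d := Sum.inr (e (Sum.inr i))

/-- the loops -/
def rl (j : Fin b) : Idx 1 d := Sum.inr (e (Sum.inl j))

theorem MM_r0 (μ : R) (u : Matrix (Fin a) (Fin b) R) : MM e s C μ u (r0 d) (r0 d) = μ := by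
  simp [MM, r0, Matrix.fromBlocks]

theorem MM_rp (μ : R) (u : Matrix (Fin a) (Fin b) R) (i : Fin a) (j : Fin b) :
    MM e s C μ u (rp e i) (rl e j) = u i j := by
  simp [MM, UU, rp, rl, Matrix.fromBlocks]

/-- The group. -/
def grp : Subgroup (GL (Idx 1 d) ℂ) where
  carrier := {x | ∃ μ u, (x : Matrix (Idx 1 d) (Idx 1 d) ℂ) = MM e s C μ u}
  one_mem' := ⟨1, 0, by rw [MM_one]; rfl⟩
  mul_mem' := by
    rintro x y ⟨μ, u, hx⟩ ⟨μ', u', hy⟩
    exact ⟨_, _, by rw [Units.val_mul, hx, hy, MM_mul]⟩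
  inv_mem' := by
    rintro x ⟨μ, u, hx⟩
    have h1 : MM e s C μ u * ((x⁻¹ : GL (Idx 1 d) ℂ) : Matrix (Idx 1 d) (Idx 1 d) ℂ) = 1 := by
      rw [← hx]
      exact x.mul_inv
    have hμ : μ ≠ 0 := by
      intro h0
      have h2 := congrFun (congrFun h1 (r0 d)) (r0 d)
      rw [Matrix.mul_apply, Matrix.one_apply_eq, Finset.sum_eq_zero] at h2
      · exact zero_ne_one h2
      · intro k _
        rcases k with (k | k) | k
        · rw [show MM e s C μ u (r0 d) (Sum.inl (Sum.inl k)) = μ from MM_r0 e s C μ u, h0,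
            zero_mul]
        · simp [MM, r0, Matrix.fromBlocks]
        · simp [MM, r0, Matrix.fromBlocks]
    refine ⟨μ⁻¹, -(μ⁻¹ • u), ?_⟩
    have h2 : MM e s C μ⁻¹ (-(μ⁻¹ • u)) * MM e s C μ u = 1 := by
      rw [MM_mul, inv_mul_cancel₀ hμ, smul_neg, smul_smul, mul_inv_cancel₀ hμ, one_smul,
        neg_add_cancel, MM_one]
    calc ((x⁻¹ : GL (Idx 1 d) ℂ) : Matrix (Idx 1 d) (Idx 1 d) ℂ)
        = MM e s C μ⁻¹ (-(μ⁻¹ • u)) * MM e s C μ u *
          ((x⁻¹ : GL (Idx 1 d) ℂ) : Matrix (Idx 1 d) (Idx 1 d) ℂ) := by rw [h2, Matrix.one_mul]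
      _ = MM e s C μ⁻¹ (-(μ⁻¹ • u)) := by rw [Matrix.mul_assoc, h1, Matrix.mul_one]

theorem mem_grp_iff (x : GL (Idx 1 d) ℂ) : x ∈ grp e s C ↔
    (x : Matrix (Idx 1 d) (Idx 1 d) ℂ) = MM e s C
      ((x : Matrix (Idx 1 d) (Idx 1 d) ℂ) (r0 d) (r0 d))
      (Matrix.of fun i j => (x : Matrix (Idx 1 d) (Idx 1 d) ℂ) (rp e i) (rl e j)) := by
  constructor
  · rintro ⟨μ, u, hx⟩
    have h1 : (x : Matrix (Idx 1 d) (Idx 1 d) ℂ) (r0 d) (r0 d) = μ := by rw [hx, MM_r0]
    have h2 : (Matrix.of fun i j => (x : Matrix (Idx 1 d) (Idx 1 d) ℂ) (rp e i) (rl e j)) = u := by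
      ext i j
      rw [Matrix.of_apply, hx, MM_rp]
    rw [h1, h2, hx]
  · intro h
    exact ⟨_, _, h⟩

theorem grp_alg : IsAlgebraicSubgroup (grp e s C) := by
  let P : Matrix (Idx 1 d) (Idx 1 d) (MvPolynomial (Idx 1 d × Idx 1 d) ℚ) :=
    MM e s C (MvPolynomial.X (r0 d, r0 d)) (Matrix.of fun i j => MvPolynomial.X (rp e i, rl e j))
  refine ⟨Set.range fun b : Idx 1 d × Idx 1 d => MvPolynomial.X b - P b.1 b.2, fun x => ?_⟩
  have h1 : ∀ b : Idx 1 d × Idx 1 d,
      MvPolynomial.aeval (fun b : Idx 1 d × Idx 1 d => (x : Matrix (Idx 1 d) (Idx 1 d) ℂ) b.1 b.2)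
        (MvPolynomial.X b - P b.1 b.2) = (x : Matrix (Idx 1 d) (Idx 1 d) ℂ) b.1 b.2 -
      MM e s C ((x : Matrix (Idx 1 d) (Idx 1 d) ℂ) (r0 d) (r0 d))
      (Matrix.of fun i j => (x : Matrix (Idx 1 d) (Idx 1 d) ℂ) (rp e i) (rl e j)) b.1 b.2 := by
    intro c
    rw [map_sub, MvPolynomial.aeval_X]
    congr 1
    let f : MvPolynomial (Idx 1 d × Idx 1 d) ℚ →ₐ[ℚ] ℂ := MvPolynomial.aeval
      (fun b : Idx 1 d × Idx 1 d => (x : Matrix (Idx 1 d) (Idx 1 d) ℂ) b.1 b.2)
    have h2 := congrFun (congrFun (MM_map e s C f (MvPolynomial.X (r0 d, r0 d))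
      (Matrix.of fun i j => MvPolynomial.X (rp e i, rl e j))) c.1) c.2
    have h3 : f (MvPolynomial.X (r0 d, r0 d)) = (x : Matrix (Idx 1 d) (Idx 1 d) ℂ) (r0 d) (r0 d) :=
      MvPolynomial.aeval_X _ _
    have h4 : (Matrix.of fun i j => MvPolynomial.X (rp e i, rl e j) :
        Matrix (Fin a) (Fin b) (MvPolynomial (Idx 1 d × Idx 1 d) ℚ)).map f =
        Matrix.of fun i j => (x : Matrix (Idx 1 d) (Idx 1 d) ℂ) (rp e i) (rl e j) := by
      ext i j
      exact MvPolynomial.aeval_X _ _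
    rw [h3, h4] at h2
    exact h2
  rw [mem_grp_iff]
  constructor
  · rintro h _ ⟨b, rfl⟩
    rw [h1, sub_eq_zero]
    exact congrFun (congrFun h b.1) b.2
  · intro h
    ext i j
    have h2 := h _ ⟨(i, j), rfl⟩
    rw [h1, sub_eq_zero] at h2
    exact h2

/-- The structure given by the logarithms. -/
def sharpV (ℓ : Matrix (Fin a) (Fin b) ℂ) : Structure d :=
  ofMatrix (UU e twoPiI ℓ) (UU e twoPiI⁻¹ (-(twoPiI⁻¹ • ℓ))) (by
    rw [UU_mul, inv_mul_cancel₀ twoPiI_ne, smul_neg, smul_smul, mul_inv_cancel₀ twoPiI_ne, one_smul,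
      neg_add_cancel, UU_one])

/-- The exceptional logarithms of the structure. -/
theorem sharp_mem (ℓ : Matrix (Fin a) (Fin b) ℂ) {x : ℂ} (hx : IsLog x)
    (hxe : x = algebraMap ℚ ℂ s + yy s C twoPiI ℓ) {Γ : Submodule ℚ ℂ}
    (h : SplitsOff (sharpV e ℓ) Γ) : x ∈ Γ := by
  by_contra hne
  let T : Matrix (Idx 1 d) (Idx 1 d) ℂ := Matrix.fromBlocks (Matrix.fromBlocks 1 0
    (Matrix.of fun _ _ => -algebraMap ℚ ℂ s) 1) 0 0 1
  have hp : periods (fun _ : Fin 1 => x) (sharpV e ℓ) * T = MM e s C twoPiI ℓ := by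
    unfold periods MM kummer sharpV
    rw [matrix_ofMatrix, Matrix.fromBlocks_multiply, Matrix.fromBlocks_multiply]
    ext i j
    rcases i with (i | i) | i <;> rcases j with (j | j) | j <;>
      simp [Matrix.fromBlocks, hxe]
  have h1 : periods (fun _ : Fin 1 => x) (sharpV e ℓ) * T *
      MM e s C twoPiI⁻¹ (-(twoPiI⁻¹ • ℓ)) = 1 := by
    rw [hp, MM_mul, mul_inv_cancel₀ twoPiI_ne, add_neg_cancel, MM_one]
  have h2 : MM e s C twoPiI⁻¹ (-(twoPiI⁻¹ • ℓ)) *
      (periods (fun _ : Fin 1 => x) (sharpV e ℓ) * T) = 1 := by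
    rw [hp, MM_mul, inv_mul_cancel₀ twoPiI_ne, smul_neg, smul_smul, mul_inv_cancel₀ twoPiI_ne,
      one_smul, neg_add_cancel, MM_one]
  obtain ⟨y, hy, hyT⟩ := h 1 (fun _ => x) (fun _ => hx) (fun _ => 1) (fun q hq => by
      rw [Fin.sum_univ_one] at hq ⊢
      have h3 : q 0 = 0 := by
        by_contra h4
        apply hne
        have h5 := Γ.smul_mem (q 0)⁻¹ hq
        have h6 : (q 0)⁻¹ • ((q 0 : ℂ) * x) = x := by
          have h7 : ((q 0 : ℚ) : ℂ) * x = q 0 • x := by
            rw [Algebra.smul_def]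
            rfl
          rw [h7, smul_smul, inv_mul_cancel₀ h4, one_smul]
        rwa [h6] at h5
      rw [h3, Rat.cast_zero, zero_mul]) (grp e s C) (grp_alg e s C)
    (by
      refine ⟨T, fun i j => ?_, ⟨_, _, h1, h2⟩, ⟨twoPiI, ℓ, hp⟩, rfl⟩
      have e0 : IsAlgebraic ℚ (0 : ℂ) := isAlgebraic_zero
      have e1 : IsAlgebraic ℚ (1 : ℂ) := isAlgebraic_one
      rcases i with (i | i) | i <;> rcases j with (j | j) | j
      · simpa [T, Matrix.fromBlocks] using e1
      · simpa [T, Matrix.fromBlocks] using e0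
      · simpa [T, Matrix.fromBlocks] using e0
      · change IsAlgebraic ℚ (-algebraMap ℚ ℂ s)
        exact (isAlgebraic_algebraMap s).neg
      · simp only [T, Matrix.fromBlocks, Matrix.of_apply, Sum.elim_inl, Sum.elim_inr,
          Matrix.one_apply]
        split_ifs
        · exact e1
        · exact e0
      · simpa [T, Matrix.fromBlocks] using e0
      · simpa [T, Matrix.fromBlocks] using e0
      · simpa [T, Matrix.fromBlocks] using e0
      · simp only [T, Matrix.fromBlocks, Matrix.of_apply, Sum.elim_inr, Matrix.one_apply]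
        split_ifs
        · exact e1
        · exact e0)
  obtain ⟨μ, u, hx⟩ := hy
  rw [hx] at hyT
  have hu : u = 0 := by
    ext i j
    have h1 := congrFun (congrFun hyT (rp e i)) (rl e j)
    rw [MM_rp] at h1
    rw [h1]
    simp [translation, rp, rl, Matrix.fromBlocks]
  have hμ : μ = 1 := by
    have h1 := congrFun (congrFun hyT (r0 d)) (r0 d)
    rw [MM_r0] at h1
    rw [h1]
    simp [translation, shear, r0, Matrix.fromBlocks]
  have h3 := congrFun (congrFun hyT (Sum.inl (Sum.inr 0))) (Sum.inl (Sum.inl ()))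
  have h4 : translation d (fun _ : Fin 1 => (1 : ℂ)) (Sum.inl (Sum.inr 0))
      (Sum.inl (Sum.inl ())) = 1 := by
    simp [translation, shear, Matrix.fromBlocks]
  have h5 : MM e s C μ u (Sum.inl (Sum.inr 0)) (Sum.inl (Sum.inl ())) = yy s C μ u := by
    simp [MM, Matrix.fromBlocks]
  rw [h5, h4, hu, hμ, yy_one] at h3
  exact zero_ne_one h3

end Grps

/-- **The bound is sharp.** -/
theorem sharp (d : ℕ) : ∃ V : Structure d, ∀ Γ : Submodule ℚ ℂ,
    FiniteDimensional ℚ Γ → SplitsOff V Γ → 1 + d ^ 2 / 4 ≤ finrank ℚ Γ := by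
  classical
  obtain ⟨a, b, hab, hd⟩ : ∃ a b : ℕ, b + a = d ∧ d ^ 2 / 4 = a * b := by
    obtain ⟨m, rfl | rfl⟩ := Nat.even_or_odd' d
    · refine ⟨m, m, by omega, ?_⟩
      have h1 : (2 * m) ^ 2 = 4 * (m * m) := by ring
      rw [h1]
      omega
    · refine ⟨m, m + 1, by omega, ?_⟩
      have h1 : (2 * m + 1) ^ 2 = 4 * (m * (m + 1)) + 1 := by ring
      rw [h1]
      omega
  let e : Fin b ⊕ Fin a ≃ Fin d := finSumFinEquiv.trans (finCongr hab)
  let p : Fin a × Fin b → ℕ := fun x => Nat.nth Nat.Prime (finProdFinEquiv x : ℕ)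
  have hp : ∀ x, (p x).Prime := fun x => Nat.prime_nth_prime _
  have hinj : Function.Injective p := by
    intro x y hxy
    have h1 := Nat.nth_injective Nat.infinite_setOfPred_prime hxy
    exact finProdFinEquiv.injective (Fin.ext h1)
  let ℓ : Matrix (Fin a) (Fin b) ℂ := Matrix.of fun i j => (Real.log (p (i, j)) : ℂ)
  refine ⟨sharpV e ℓ, fun Γ hfin hΓ => ?_⟩
  have hlog : ∀ i j, IsLog (ℓ i j) := by
    intro i j
    change IsAlgebraic ℚ (Complex.exp (Real.log (p (i, j)) : ℂ))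
    have h1 : (0 : ℝ) < p (i, j) := by exact_mod_cast (hp (i, j)).pos
    rw [← Complex.ofReal_exp, Real.exp_log h1, Complex.ofReal_natCast]
    exact isAlgebraic_natCast _
  have hmem : ∀ o, fam p o ∈ Γ := by
    rintro (_ | ⟨i, j⟩)
    · refine sharp_mem e 1 0 ℓ (x := twoPiI) tau_mem_Logs ?_ hΓ
      unfold yy
      simp
    · refine sharp_mem e 0 (Matrix.of fun k l => if k = i ∧ l = j then 1 else 0) ℓ (x := ℓ i j)
        (hlog i j) ?_ hΓ
      unfold yy
      rw [Finset.sum_eq_single i, Finset.sum_eq_single j]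
      · simp
      · intro k _ hk
        rw [Matrix.of_apply, if_neg (fun h => hk h.2), map_zero, zero_mul]
      · intro h
        exact absurd (Finset.mem_univ _) h
      · intro k _ hk
        refine Finset.sum_eq_zero fun l _ => ?_
        rw [Matrix.of_apply, if_neg (fun h => hk h.1), map_zero, zero_mul]
      · intro h
        exact absurd (Finset.mem_univ _) h
  have hli : LinearIndependent ℚ fun o => (⟨fam p o, hmem o⟩ : Γ) := by
    apply LinearIndependent.of_comp Γ.subtype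
    exact indep_fam hp hinj
  have h1 := hli.fintype_card_le_finrank
  rw [Fintype.card_option, Fintype.card_prod, Fintype.card_fin, Fintype.card_fin] at h1
  omega

end Pool.Agent.V8H93.LK
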